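import Pool.Agent.Helper74.SS.Geo

/-! Project SS: the two presentations, and the statements of the algebraic part (Part G). -/

set_option autoImplicit false

open Set Metric Filter Topology

namespace Pool.Agent.Helper74.SS

/-- The six generators: `st 0 = s`, `st 1 = t`, `a 0, a 1` and `b 0, b 1`. -/
inductive Gn : Type
  | st (k : Fin 2)
  | a (j : Fin 2)
  | b (i : Fin 2)
  deriving DecidableEq, Fintype

/-- The ten relators. -/
inductive Rl : Type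
  | phi (j : Fin 2)
  | st (i k : Fin 2)
  | ba (i j : Fin 2)
  deriving DecidableEq, Fintype

/-- inverse word -/
def wi {ι : Type} (w : Wd ι) : Wd ι := (w.map fun a => (a.1, !a.2)).reverse

/-- one letter -/
def lt {ι : Type} (x : ι) : Wd ι := [(x, true)]

/-- the word `u v u⁻¹ v⁻²` -/
def Qw {ι : Type} (u v : Wd ι) : Wd ι := u ++ v ++ wi u ++ wi v ++ wi v

/-- the commutator word `u v u⁻¹ v⁻¹` -/
def Cw {ι : Type} (u v : Wd ι) : Wd ι := u ++ v ++ wi u ++ wi v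

/-- `W_1(u) = (s u₁ s⁻¹ u₁⁻²)(t u₂ t⁻¹ u₂⁻²)⁻¹`, `W_2(u) = (t u₁ t⁻¹ u₁⁻²)(s u₂ s⁻¹ u₂⁻²)`. -/
def WW2 (u : Fin 2 → Wd Gn) (j : Fin 2) : Wd Gn :=
  if j = 0 then Qw (lt (.st 0)) (u 0) ++ wi (Qw (lt (.st 1)) (u 1))
  else Qw (lt (.st 1)) (u 0) ++ Qw (lt (.st 0)) (u 1)

/-- `U_1 = (s a₁ s⁻¹ a₁⁻²)(t a₂ t⁻¹ a₂⁻²)`, `U_2 = (t a₁ t⁻¹ a₁⁻²)⁻¹(s a₂ s⁻¹ a₂⁻²)`. -/
def UU (j : Fin 2) : Wd Gn :=
  if j = 0 then Qw (lt (.st 0)) (lt (.a 0)) ++ Qw (lt (.st 1)) (lt (.a 1))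
  else wi (Qw (lt (.st 1)) (lt (.a 0))) ++ Qw (lt (.st 0)) (lt (.a 1))

/-- `φ_j = a_j⁻¹ W_j(U_1, U_2)` -/
def phiW (j : Fin 2) : Wd Gn := wi (lt (.a j)) ++ WW2 UU j

/-- the relators of `K` -/
def RK : Rl → Wd Gn
  | .phi j => phiW j
  | .st i k => Cw (lt (.b i)) (lt (.st k))
  | .ba i j => Cw (lt (.b i)) (lt (.a j))

/-- the relators of `L` -/
def RL : Rl → Wd Gn
  | .phi j => phiW j
  | .st i k => Cw (lt (.b i)) (lt (.st k))
  | .ba i j => if i = 0 then Cw (lt (.b 0)) (UU j) else Cw (lt (.b i)) (lt (.a j))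

/-- the relators of `K`, `L` and one empty relator (a wedge summand `S²`) -/
def RKs : Rl ⊕ Unit → Wd Gn := Sum.elim RK fun _ => []
def RLs : Rl ⊕ Unit → Wd Gn := Sum.elim RL fun _ => []

/-- `f = (χ(s)-2)² + (χ(t)-2)² - 1` -/
def ff {A : Type} [CommRing A] (u : Gn → Aˣ) : A :=
  ((u (.st 0) : A) - 2) ^ 2 + ((u (.st 1) : A) - 2) ^ 2 - 1

/-- the value of a crossed homomorphism on `U_j`, when `χ(a_j) = 1` -/
def mU {A : Type} [CommRing A] (u : Gn → Aˣ) (m : Gn → A) (j : Fin 2) : A :=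
  if j = 0 then ((u (.st 0) : A) - 2) * m (.a 0) + ((u (.st 1) : A) - 2) * m (.a 1)
  else -(((u (.st 1) : A) - 2) * m (.a 0)) + ((u (.st 0) : A) - 2) * m (.a 1)

/-- G1. Evaluation of words: elementary rules. -/
def StG1 : Prop :=
  ∀ (ι G : Type) [Group G] (g : ι → G),
    wev g [] = 1 ∧ (∀ u v : Wd ι, wev g (u ++ v) = wev g u * wev g v) ∧
    (∀ u : Wd ι, wev g (wi u) = (wev g u)⁻¹) ∧ (∀ x : ι, wev g (lt x) = g x) ∧
    (∀ u : Wd ι, wev g u = FreeGroup.lift g (FreeGroup.mk u)) ∧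
    (∀ (H : Type) [Group H] (f : G →* H) (u : Wd ι), f (wev g u) = wev (fun i => f (g i)) u)

/-- G2. The values of the relators in the affine group. -/
def StG2 : Prop :=
  ∀ (A : Type) [CommRing A] (u : Gn → Aˣ) (m : Gn → A), (∀ j, u (.a j) = 1) →
    (∀ j, wev (fun i => (⟨m i, u i⟩ : Aff A)) (UU j) = ⟨mU u m j, 1⟩) ∧
    (∀ j, wev (fun i => (⟨m i, u i⟩ : Aff A)) (RK (.phi j)) = ⟨ff u * m (.a j), 1⟩) ∧
    (∀ i k, wev (fun i => (⟨m i, u i⟩ : Aff A)) (RK (.st i k)) =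
      ⟨(1 - (u (.st k) : A)) * m (.b i) + ((u (.b i) : A) - 1) * m (.st k), 1⟩) ∧
    (∀ i j, wev (fun i => (⟨m i, u i⟩ : Aff A)) (RK (.ba i j)) =
      ⟨((u (.b i) : A) - 1) * m (.a j), 1⟩) ∧
    (∀ j, wev (fun i => (⟨m i, u i⟩ : Aff A)) (RL (.phi j)) = ⟨ff u * m (.a j), 1⟩) ∧
    (∀ i k, wev (fun i => (⟨m i, u i⟩ : Aff A)) (RL (.st i k)) =
      ⟨(1 - (u (.st k) : A)) * m (.b i) + ((u (.b i) : A) - 1) * m (.st k), 1⟩) ∧
    (∀ i j, wev (fun i => (⟨m i, u i⟩ : Aff A)) (RL (.ba i j)) =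
      ⟨((u (.b i) : A) - 1) * (if i = 0 then mU u m j else m (.a j)), 1⟩)

/-- G3. The values of the relators under `Cup`, when `χ(b_i) = 1` and `m(b_i) = 0`. -/
def StG3 : Prop :=
  ∀ (A : Type) [CommRing A] (μ : Gn → Heq A), (∀ j, (μ (.a j)).u = 1) →
    (∀ i, (μ (.b i)).u = 1) → (∀ i, (μ (.b i)).m = 0) →
    (∀ i k, Cup RKs μ (.inl (.st i k)) = ((μ (.b i)).n : A) * (μ (.st k)).m) ∧
    (∀ i j, Cup RKs μ (.inl (.ba i j)) = ((μ (.b i)).n : A) * (μ (.a j)).m) ∧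
    (Cup RKs μ (.inr ()) = 0) ∧
    (∀ i k, Cup RLs μ (.inl (.st i k)) = ((μ (.b i)).n : A) * (μ (.st k)).m) ∧
    (∀ i j, Cup RLs μ (.inl (.ba i j)) = ((μ (.b i)).n : A) *
      (if i = 0 then mU (fun x => (μ x).u) (fun x => (μ x).m) j else (μ (.a j)).m)) ∧
    (Cup RLs μ (.inr ()) = 0)

/-- The common properties of the groups of `K` and `L`. -/
structure Sys (π : Type) [Group π] (g : Gn → π) : Prop where
  gens : Subgroup.closure (Set.range g) = ⊤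
  bs : ∀ i k, Commute (g (.b i)) (g (.st k))
  ba : ∀ i j, Commute (g (.b i)) (g (.a j))
  ph : ∀ j, wev g (phiW j) = 1
  univ : ∀ (H : Type) [Group H] (h : Gn → H), (∀ i k, Commute (h (.b i)) (h (.st k))) →
    (∀ i j, Commute (h (.b i)) (h (.a j))) → (∀ j, wev h (phiW j) = 1) →
    ∃ f : π →* H, ∀ x, f (g x) = h x

/-- G4. Both groups satisfy `Sys`. -/
def StG4 : Prop := Sys (PG RKs) (gen RKs) ∧ Sys (PG RLs) (gen RLs)

/-- crossed homomorphisms with real values -/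
def CH {π : Type} [Group π] (χ : π →* ℝˣ) (m : π → ℝ) : Prop :=
  ∀ x y, m (x * y) = m x + (χ x : ℝ) * m y

/-- there are three linearly independent crossed homomorphisms -/
def Many {π : Type} [Group π] (χ : π →* ℝˣ) : Prop :=
  ∃ m : Fin 3 → π → ℝ, (∀ i, CH χ (m i)) ∧ LinearIndependent ℝ m

/-- G5. Real characters with many crossed homomorphisms, different from `1`, lie on the circle. -/
def StG5 : Prop :=
  ∀ (π : Type) [Group π] (g : Gn → π) (χ : π →* ℝˣ), Sys π g → χ ≠ 1 → Many χ →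
    (∀ j, χ (g (.a j)) = 1) ∧ (∀ i, χ (g (.b i)) = 1) ∧ ff (fun x => χ (g x)) = 0

/-- G6. The characters on the circle have many crossed homomorphisms. -/
def StG6 : Prop :=
  ∀ (π : Type) [Group π] (g : Gn → π) (χ : π →* ℝˣ), Sys π g → (∀ j, χ (g (.a j)) = 1) →
    (∀ i, χ (g (.b i)) = 1) → ff (fun x => χ (g x)) = 0 → Many χ

/-- G7. For an isomorphism `θ`, every character which is trivial on `b_i` (and on `a_j`) is
trivial on `θ(b_i)` and `θ(a_j)`. -/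
def StG7 : Prop :=
  ∀ (π π' : Type) [Group π] [Group π'] (g : Gn → π) (g' : Gn → π') (θ : π ≃* π'),
    Sys π g → Sys π' g' → ∀ (A : Type) [CommRing A] (χ : π' →* Aˣ), (∀ j, χ (g' (.a j)) = 1) →
    (∀ i, χ (g' (.b i)) = 1) → (∀ i, χ (θ (g (.b i))) = 1) ∧ (∀ j, χ (θ (g (.a j))) = 1)

/-- index set of the free part of the second cohomology of `K` and `L` -/
abbrev I6 : Type := Fin 2 × Fin 3

/-- the rotation matrix -/
def rotA (z : ℂ) : Matrix (Fin 3) (Fin 3) ℝ :=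
  !![z.re, z.im, 0; -z.im, z.re, 0; 0, 0, 1]

/-- `rotA z` in the block `i = 0`, the identity in the block `i = 1` -/
def bigA (z : ℂ) : Matrix I6 I6 ℝ :=
  fun p q => if p.1 = q.1 then (if p.1 = 0 then rotA z p.2 q.2 else if p.2 = q.2 then 1 else 0)
    else 0

/-- SPIN. The contradiction in the general linear group. -/
def StSpin : Prop :=
  ∀ (N : ℂ → Matrix (I6 ⊕ Unit) (I6 ⊕ Unit) ℝ) (H : ℂ → Matrix (Fin 3) (Fin 3) ℝ)
    (C : Matrix (Fin 2) (Fin 2) ℝ) (v : ℂ → Matrix I6 Unit ℝ) (D : ℂ → Matrix Unit Unit ℝ),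
    ContinuousOn N (closedBall 0 1) → (∀ z ∈ closedBall (0 : ℂ) 1, (N z).det ≠ 0) →
    ContinuousOn H (sphere 0 1) →
    (∀ z ∈ sphere (0 : ℂ) 1, N z * Matrix.fromBlocks (bigA z) 0 0 1 =
      Matrix.fromBlocks (Matrix.kroneckerMap (· * ·) C (H z)) (v z) 0 (D z)) → False

/-- the linear map `ℓ : A^κ → A^7` of `K` and of `L` (`u` the character on the generators) -/
def ell {A : Type} [CommRing A] (u : Gn → Aˣ) (c : Rl ⊕ Unit → A) : I6 ⊕ Unit → A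
  | .inl (i, 0) => c (.inl (.ba i 0))
  | .inl (i, 1) => c (.inl (.ba i 1))
  | .inl (i, 2) => (1 - (u (.st 1) : A)) * c (.inl (.st i 0)) -
      (1 - (u (.st 0) : A)) * c (.inl (.st i 1))
  | .inr () => c (.inr ())

/-- G8. `ell` kills coboundaries (for characters trivial on `a_j`, `b_i`). -/
def StG8 : Prop :=
  ∀ (A : Type) [CommRing A] (u : Gn → Aˣ) (c : Rl ⊕ Unit → A), (∀ j, u (.a j) = 1) →
    (∀ i, u (.b i) = 1) → (Bd RKs u c ∨ Bd RLs u c) → ell u c = 0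

/-- G9. If `1 - χ(s), 1 - χ(t)` generate the unit ideal, `ell` is surjective and its kernel is
killed by `f` modulo coboundaries. -/
def StG9 : Prop :=
  ∀ (A : Type) [CommRing A] (u : Gn → Aˣ), (∀ j, u (.a j) = 1) → (∀ i, u (.b i) = 1) →
    (∃ p q : A, p * (1 - (u (.st 0) : A)) + q * (1 - (u (.st 1) : A)) = 1) →
    (∀ d : I6 ⊕ Unit → A, ∃ c, ell u c = d) ∧
    (∀ c, ell u c = 0 → Bd RLs u (fun j => ff u * c j))

/-- G10. The matrix `N` over one ring. -/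
def StG10 : Prop :=
  ∀ (A : Type) [CommRing A] (T : (Rl ⊕ Unit → A) → (Rl ⊕ Unit → A) → Prop) (uL uK : Gn → Aˣ),
    (∀ j, uL (.a j) = 1) → (∀ i, uL (.b i) = 1) → (∀ j, uK (.a j) = 1) → (∀ i, uK (.b i) = 1) →
    (∃ p q : A, p * (1 - (uL (.st 0) : A)) + q * (1 - (uL (.st 1) : A)) = 1) →
    (∃ p q : A, p * (1 - (uK (.st 0) : A)) + q * (1 - (uK (.st 1) : A)) = 1) →
    (∀ x : A, ff uL * x = 0 → x = 0) →
    (∀ (c' d' c d : Rl ⊕ Unit → A) (a : A), T c' c → T d' d →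
      T (fun j => c' j + a * d' j) (fun j => c j + a * d j)) →
    (∀ c', ∃ c, T c' c) → (∀ c, ∃ c', T c' c) →
    (∀ c' c, T c' c → Bd RLs uL c' → Bd RKs uK c) →
    ∃ N : Matrix (I6 ⊕ Unit) (I6 ⊕ Unit) A, IsUnit N.det ∧
      ∀ c' c, T c' c → ell uK c = N.mulVec (ell uL c')

/-- G11. The cup product classes under `ell`. -/
def StG11 : Prop :=
  ∀ (A : Type) [CommRing A] (θ : PG RKs ≃* PG RLs) (μ : PG RLs →* Heq A),
    (∀ j, (μ (gen RLs (.a j))).u = 1) → (∀ i, (μ (gen RLs (.b i))).u = 1) →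
    (∀ i, (μ (gen RLs (.b i))).m = 0) →
    (∃ p q : A, p * (1 - ((μ (θ (gen RKs (.st 0)))).u : A)) +
      q * (1 - ((μ (θ (gen RKs (.st 1)))).u : A)) = 1) →
    (∀ j, (μ (θ (gen RKs (.a j)))).u = 1) ∧ (∀ i, (μ (θ (gen RKs (.b i)))).u = 1) ∧
    (∀ (i : Fin 2) (k : Fin 3),
      ell (fun x => (μ (gen RLs x)).u) (Cup RLs fun x => μ (gen RLs x)) (.inl (i, k)) =
        ((μ (gen RLs (.b i))).n : A) *
          (![if i = 0 then mU (fun x => (μ (gen RLs x)).u) (fun x => (μ (gen RLs x)).m) 0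
              else (μ (gen RLs (.a 0))).m,
            if i = 0 then mU (fun x => (μ (gen RLs x)).u) (fun x => (μ (gen RLs x)).m) 1
              else (μ (gen RLs (.a 1))).m,
            (1 - ((μ (gen RLs (.st 1))).u : A)) * (μ (gen RLs (.st 0))).m -
              (1 - ((μ (gen RLs (.st 0))).u : A)) * (μ (gen RLs (.st 1))).m] k)) ∧
    ell (fun x => (μ (gen RLs x)).u) (Cup RLs fun x => μ (gen RLs x)) (.inr ()) = 0 ∧
    (∀ (i : Fin 2) (k : Fin 3),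
      ell (fun x => (μ (θ (gen RKs x))).u) (Cup RKs fun x => μ (θ (gen RKs x))) (.inl (i, k)) =
        ((μ (θ (gen RKs (.b i)))).n : A) *
          (![(μ (θ (gen RKs (.a 0)))).m, (μ (θ (gen RKs (.a 1)))).m,
            (1 - ((μ (θ (gen RKs (.st 1)))).u : A)) * (μ (θ (gen RKs (.st 0)))).m -
              (1 - ((μ (θ (gen RKs (.st 0)))).u : A)) * (μ (θ (gen RKs (.st 1)))).m] k)) ∧
    ell (fun x => (μ (θ (gen RKs x))).u) (Cup RKs fun x => μ (θ (gen RKs x))) (.inr ()) = 0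

/-- The real character `χ` of the group of `L` is the one belonging to the point `z` of the disc. -/
def ChAt (z : ℂ) (χ : PG RLs →* ℝˣ) : Prop :=
  (χ (gen RLs (.st 0)) : ℝ) = 2 + z.re ∧ (χ (gen RLs (.st 1)) : ℝ) = 2 + z.im ∧
    (∀ j, χ (gen RLs (.a j)) = 1) ∧ ∀ i, χ (gen RLs (.b i)) = 1

/-- NA. The matrix function `N` on the closed disc. -/
def StNA : Prop :=
  ∀ (θ : PG RKs ≃* PG RLs)
    (T : ∀ (A : Type) [CommRing A], (PG RLs →* Aˣ) → (Rl ⊕ Unit → A) → (Rl ⊕ Unit → A) → Prop),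
    TD RKs RLs θ T → ∃ N : ℂ → Matrix (I6 ⊕ Unit) (I6 ⊕ Unit) ℝ,
      ContinuousOn N (closedBall 0 1) ∧ (∀ z ∈ closedBall (0 : ℂ) 1, (N z).det ≠ 0) ∧
      ∀ z ∈ closedBall (0 : ℂ) 1, ∀ χ : PG RLs →* ℝˣ, ChAt z χ → ∀ c' c, T ℝ χ c' c →
        ell (fun x => χ (θ (gen RKs x))) c = (N z).mulVec (ell (fun x => χ (gen RLs x)) c')

/-- the vector of length 7 with the given first six coordinates and last coordinate zero -/
def ext0 (v : I6 → ℝ) : I6 ⊕ Unit → ℝ := Sum.elim v fun _ => 0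

/-- NB. The cup product classes on the circle. -/
def StNB : Prop :=
  ∀ (θ : PG RKs ≃* PG RLs), ∃ (H : ℂ → Matrix (Fin 3) (Fin 3) ℝ) (C : Matrix (Fin 2) (Fin 2) ℝ),
    ContinuousOn H (sphere 0 1) ∧ ∀ z ∈ sphere (0 : ℂ) 1, ∀ (i : Fin 2) (k : Fin 3),
      ∃ μ : PG RLs →* Heq ℝ, ChAt z ((Heq.uHom ℝ).comp μ) ∧
        ell (fun x => (μ (gen RLs x)).u) (Cup RLs fun x => μ (gen RLs x)) =
          ext0 (fun p => bigA z p (i, k)) ∧
        ell (fun x => (μ (θ (gen RKs x))).u) (Cup RKs fun x => μ (θ (gen RKs x))) =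
          ext0 (fun p => Matrix.kroneckerMap (· * ·) C (H z) p (i, k))

/-- NEG. The algebraic half of the proof. -/
def StNeg : Prop := TopD RKs RLs → False

end Pool.Agent.Helper74.SS
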