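import Pool.Agent.Helper74.SS.Geo

/-! Project SS: the concrete 2-complex `XX R` of a presentation, and the statements of Part C. -/

set_option autoImplicit false

open Set Metric Filter Topology

namespace Pool.Agent.Helper74.SS

/-- the ambient space -/
abbrev Amb (ι κ : Type) : Type := (ι → ℂ) × (κ → ℂ × ℝ)

/-- the circle `t ↦ exp(2 π i t)` -/
noncomputable def ex (t : ℝ) : ℂ := Complex.exp (2 * Real.pi * t * Complex.I)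

/-- the loop of one letter (for `t ∈ [0,1]`) in the wedge of circles -/
noncomputable def lp {ι : Type} [DecidableEq ι] (a : ι × Bool) (t : ℝ) : ι → ℂ :=
  Pi.single a.1 (ex (if a.2 then t else -t) - 1)

/-- clamp to `[0,1]` -/
noncomputable def clamp (t : ℝ) : ℝ := max 0 (min 1 t)

/-- the loop of a word -/
noncomputable def gam {ι : Type} [DecidableEq ι] : Wd ι → ℝ → (ι → ℂ)
  | [], _ => 0
  | a :: w, t => lp a (clamp (2 * t)) + gam w (2 * t - 1)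

/-- the point of the wedge of circles on the circle `i` with parameter `t` -/
noncomputable def wpt {ι κ : Type} [DecidableEq ι] (i : ι) (t : ℝ) : Amb ι κ :=
  (Pi.single i (ex t - 1), 0)

/-- the wedge of circles -/
def WW (ι κ : Type) [DecidableEq ι] : Set (Amb ι κ) := {x | x = 0 ∨ ∃ i t, x = wpt i t}

/-- the characteristic map of the 2-cell `j` in polar coordinates -/
noncomputable def cel {ι κ : Type} [DecidableEq ι] [DecidableEq κ] (R : κ → Wd ι) (j : κ)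
    (ρ t : ℝ) : Amb ι κ :=
  ((max 0 (3 * ρ - 2)) • gam (R j) t, Pi.single j (((ρ * (1 - ρ) : ℝ) : ℂ) * ex t, 1 - ρ))

/-- the 2-complex of the presentation `R` -/
def XX {ι κ : Type} [DecidableEq ι] [DecidableEq κ] (R : κ → Wd ι) : Set (Amb ι κ) :=
  {x | x ∈ WW ι κ ∨ ∃ j, ∃ ρ ∈ Icc (0 : ℝ) 1, ∃ t ∈ Icc (0 : ℝ) 1, x = cel R j ρ t}

/-- the height over the cell `j` -/
def hh {ι κ : Type} (j : κ) (x : Amb ι κ) : ℝ := (x.2 j).2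

/-- the neighbourhood of the 1-skeleton -/
def AA {ι κ : Type} [DecidableEq ι] [DecidableEq κ] (R : κ → Wd ι) : Set (Amb ι κ) :=
  {x | x ∈ XX R ∧ ∀ j, hh j x ≤ 1 / 2}

/-- the inner disc of the cell `j` -/
def BB {ι κ : Type} [DecidableEq ι] [DecidableEq κ] (R : κ → Wd ι) (j : κ) : Set (Amb ι κ) :=
  {x | x ∈ XX R ∧ 1 / 3 ≤ hh j x}

/-- C0. Compact sources and continuity. -/
def StC0 : Prop :=
  ∀ (T V Y : Type) [TopologicalSpace T] [TopologicalSpace V] [T2Space V] [TopologicalSpace Y]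
    (K : Set T) (q : T → V) (f : V → Y), IsCompact K → ContinuousOn q K →
    ContinuousOn (fun x => f (q x)) K → ContinuousOn f (q '' K)

/-- C1. The functions `ex` and `gam`. -/
def StC1 : Prop :=
  Continuous ex ∧ ex 0 = 1 ∧ ex 1 = 1 ∧ (∀ s t, ex (s + t) = ex s * ex t) ∧
  (∀ t, ‖ex t‖ = 1) ∧ (∀ z : ℂ, ‖z‖ = 1 → ∃ t ∈ Ico (0 : ℝ) 1, z = ex t) ∧
  (∀ s t, ex s = ex t ↔ ∃ n : ℤ, s - t = n) ∧
  ∀ (ι κ : Type) [DecidableEq ι] (w : Wd ι), Continuous (gam w) ∧ (∀ t ≤ 0, gam w t = 0) ∧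
    (∀ t ≥ 1, gam w t = 0) ∧ ∀ t, ((gam w t, 0) : Amb ι κ) ∈ WW ι κ

/-- C2. Points of the complex: the cells and their coordinates. -/
def StC2 : Prop :=
  ∀ (ι κ : Type) [Fintype ι] [DecidableEq ι] [Fintype κ] [DecidableEq κ] (R : κ → Wd ι),
    IsCompact (WW ι κ) ∧ IsCompact (XX R) ∧
    (∀ j, Continuous fun p : ℝ × ℝ => cel R j p.1 p.2) ∧
    (∀ j t, cel R j 1 t = (gam (R j) t, 0)) ∧ (∀ j t, cel R j 0 t = cel R j 0 0) ∧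
    (∀ j ρ, cel R j ρ 0 = cel R j ρ 1) ∧
    (∀ j ρ t, hh j (cel R j ρ t) = 1 - ρ) ∧ (∀ j k ρ t, j ≠ k → hh k (cel R j ρ t) = 0) ∧
    (∀ x ∈ WW ι κ, ∀ j, hh j x = 0) ∧ (∀ x ∈ XX R, ∀ j, 0 ≤ hh j x) ∧
    (∀ x ∈ XX R, ∀ j, 0 < hh j x → ∃ t ∈ Icc (0 : ℝ) 1, x = cel R j (1 - hh j x) t) ∧
    (∀ x ∈ XX R, (∀ j, hh j x = 0) → x ∈ WW ι κ) ∧
    (∀ j, ∀ ρ ∈ Icc (0 : ℝ) 1, ∀ ρ' ∈ Icc (0 : ℝ) 1, ∀ t ∈ Icc (0 : ℝ) 1, ∀ t' ∈ Icc (0 : ℝ) 1,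
      ρ < 1 → cel R j ρ t = cel R j ρ' t' → ρ = ρ' ∧ (ρ = 0 ∨ ∃ n : ℤ, t - t' = n))

/-- C3. Maps out of the complex, with a parameter `τ ∈ [0,1]`: a continuous map on the wedge of
circles and continuous maps on the cells which fit together give a continuous map. -/
def StC3 : Prop :=
  ∀ (ι κ Y : Type) [Fintype ι] [DecidableEq ι] [Fintype κ] [DecidableEq κ] [TopologicalSpace Y]
    (R : κ → Wd ι) (fW : Amb ι κ → ℝ → Y) (fc : κ → ℝ → ℝ → ℝ → Y),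
    ContinuousOn (fun p : Amb ι κ × ℝ => fW p.1 p.2) (WW ι κ ×ˢ Icc (0 : ℝ) 1) →
    (∀ j, ContinuousOn (fun p : ℝ × ℝ × ℝ => fc j p.1 p.2.1 p.2.2)
      (Icc (0 : ℝ) 1 ×ˢ Icc (0 : ℝ) 1 ×ˢ Icc (0 : ℝ) 1)) →
    (∀ j, ∀ t ∈ Icc (0 : ℝ) 1, ∀ τ ∈ Icc (0 : ℝ) 1, fc j 1 t τ = fW (gam (R j) t, 0) τ) →
    (∀ j, ∀ t ∈ Icc (0 : ℝ) 1, ∀ τ ∈ Icc (0 : ℝ) 1, fc j 0 t τ = fc j 0 0 τ) →
    (∀ j, ∀ ρ ∈ Icc (0 : ℝ) 1, ∀ τ ∈ Icc (0 : ℝ) 1, fc j ρ 0 τ = fc j ρ 1 τ) →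
    ∃ f : Amb ι κ → ℝ → Y,
      ContinuousOn (fun p : Amb ι κ × ℝ => f p.1 p.2) (XX R ×ˢ Icc (0 : ℝ) 1) ∧
      (∀ x ∈ WW ι κ, ∀ τ ∈ Icc (0 : ℝ) 1, f x τ = fW x τ) ∧
      ∀ j, ∀ ρ ∈ Icc (0 : ℝ) 1, ∀ t ∈ Icc (0 : ℝ) 1, ∀ τ ∈ Icc (0 : ℝ) 1,
        f (cel R j ρ t) τ = fc j ρ t τ

/-- C4. The push-out homotopy retracting `AA R` to the wedge of circles. -/
def StC4 : Prop :=
  ∀ (ι κ : Type) [Fintype ι] [DecidableEq ι] [Fintype κ] [DecidableEq κ] (R : κ → Wd ι),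
    ∃ P : Amb ι κ → ℝ → Amb ι κ, HMor (AA R) (AA R) P ∧ (∀ x ∈ AA R, P x 0 = x) ∧
      (∀ x ∈ AA R, P x 1 ∈ WW ι κ) ∧ ∀ x ∈ WW ι κ, ∀ τ ∈ Icc (0 : ℝ) 1, P x τ = x

/-- C5. The Lebesgue property, disjointness, and connectedness by paths. -/
def StC5 : Prop :=
  ∀ (ι κ : Type) [Fintype ι] [DecidableEq ι] [Fintype κ] [DecidableEq κ] (R : κ → Wd ι),
    (∃ ε > 0, ∀ x ∈ XX R, (∀ y ∈ XX R, dist x y < ε → y ∈ AA R) ∨
      ∃ j, ∀ y ∈ XX R, dist x y < ε → y ∈ BB R j) ∧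
    (∀ j k, j ≠ k → Disjoint (BB R j) (BB R k)) ∧
    (∀ x ∈ XX R, ∃ γ, IsPath (XX R) γ ∧ γ 0 = 0 ∧ γ 1 = x)

/-- C6. The inner discs are contractible. -/
def StC6 : Prop :=
  ∀ (ι κ : Type) [Fintype ι] [DecidableEq ι] [Fintype κ] [DecidableEq κ] (R : κ → Wd ι) (j : κ),
    Contr (BB R j)

/-- C7. The annuli and the unit circle. -/
def StC7 : Prop :=
  ∀ (ι κ : Type) [Fintype ι] [DecidableEq ι] [Fintype κ] [DecidableEq κ] (R : κ → Wd ι) (j : κ),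
    ∃ (a : Amb ι κ → ℂ) (s : ℂ → Amb ι κ) (h : Amb ι κ → ℝ → Amb ι κ),
      Mor (AA R ∩ BB R j) (sphere 0 1) a ∧ Mor (sphere 0 1) (AA R ∩ BB R j) s ∧
      (∀ t, a (cel R j (1 / 2) t) = ex t) ∧ (∀ t, s (ex t) = cel R j (1 / 2) t) ∧
      HMor (AA R ∩ BB R j) (AA R ∩ BB R j) h ∧ (∀ x ∈ AA R ∩ BB R j, h x 0 = x) ∧
      (∀ x ∈ AA R ∩ BB R j, h x 1 = s (a x))

/-- C8a. Cocycles on the unit circle: existence. -/
def StC8a : Prop :=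
  ∀ (G : Type) [Group G] (g : G), ∃ E : ℂ → ℂ → G, Coc (sphere (0 : ℂ) 1) E ∧ PP E ex = g ∧
    ∃ ε > 0, ∀ z ∈ sphere (0 : ℂ) 1, ∀ w ∈ sphere (0 : ℂ) 1, dist 1 z < ε → dist 1 w < ε →
      E z w = 1

/-- C8b. Cocycles on the unit circle: uniqueness. -/
def StC8b : Prop :=
  ∀ (G : Type) [Group G] (E E' : ℂ → ℂ → G), Coc (sphere (0 : ℂ) 1) E →
    Coc (sphere (0 : ℂ) 1) E' → PP E ex = PP E' ex →
    ∃ c : ℂ → G, c 1 = 1 ∧ Gau (sphere (0 : ℂ) 1) c E E'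

/-- C9a. Cocycles on the wedge of circles: existence. -/
def StC9a : Prop :=
  ∀ (ι κ G : Type) [Fintype ι] [DecidableEq ι] [Fintype κ] [DecidableEq κ] [Group G] (g : ι → G),
    ∃ E : Amb ι κ → Amb ι κ → G, Coc (WW ι κ) E ∧ ∀ i, PP E (wpt i) = g i

/-- C9b. Cocycles on the wedge of circles: uniqueness. -/
def StC9b : Prop :=
  ∀ (ι κ G : Type) [Fintype ι] [DecidableEq ι] [Fintype κ] [DecidableEq κ] [Group G]
    (E E' : Amb ι κ → Amb ι κ → G), Coc (WW ι κ) E → Coc (WW ι κ) E' →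
      (∀ i, PP E (wpt i) = PP E' (wpt i)) → ∃ c : Amb ι κ → G, c 0 = 1 ∧ Gau (WW ι κ) c E E'

/-- C10. The wedge of circles is one-dimensional. -/
def StC10 : Prop :=
  ∀ (ι κ : Type) [Fintype ι] [DecidableEq ι] [Fintype κ] [DecidableEq κ], Dim1 (WW ι κ)

/-- C11. Cocycles on `AA R`. -/
def StC11 : Prop :=
  ∀ (ι κ : Type) [Fintype ι] [DecidableEq ι] [Fintype κ] [DecidableEq κ] (R : κ → Wd ι),
    (∀ (G : Type) [Group G] (g : ι → G), ∃ E : Amb ι κ → Amb ι κ → G, Coc (AA R) E ∧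
      ∀ i, PP E (wpt i) = g i) ∧
    (∀ (G : Type) [Group G] (E E' : Amb ι κ → Amb ι κ → G), Coc (AA R) E → Coc (AA R) E' →
      (∀ i, PP E (wpt i) = PP E' (wpt i)) → ∃ c : Amb ι κ → G, c 0 = 1 ∧ Gau (AA R) c E E') ∧
    (∀ (K : Type) [CommRing K] (e : Amb ι κ → Amb ι κ → Kˣ)
      (ω : Amb ι κ → Amb ι κ → Amb ι κ → K), Coc (AA R) e → Z2 (AA R) e ω → B2 (AA R) e ω)

/-- C12. Path products along words and around the annuli. -/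
def StC12 : Prop :=
  ∀ (ι κ G : Type) [Fintype ι] [DecidableEq ι] [Fintype κ] [DecidableEq κ] [Group G]
    (R : κ → Wd ι) (E : Amb ι κ → Amb ι κ → G), Coc (AA R) E →
    (∀ w : Wd ι, PP E (fun t => (gam w t, 0)) = wev (fun i => PP E (wpt i)) w) ∧
    (∀ j, PP E (fun τ => cel R j (1 - τ / 2) 0) * PP E (fun t => cel R j (1 / 2) t) *
      (PP E (fun τ => cel R j (1 - τ / 2) 0))⁻¹ = wev (fun i => PP E (wpt i)) (R j))

/-- C13. Cocycles on the annuli. -/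
def StC13 : Prop :=
  ∀ (ι κ : Type) [Fintype ι] [DecidableEq ι] [Fintype κ] [DecidableEq κ] (R : κ → Wd ι) (j : κ),
    (∀ x ∈ AA R ∩ BB R j, ∃ γ, IsPath (AA R ∩ BB R j) γ ∧ γ 0 = cel R j (1 / 2) 0 ∧ γ 1 = x) ∧
    (∀ (G : Type) [Group G] (E : Amb ι κ → Amb ι κ → G), Coc (AA R ∩ BB R j) E →
      PP E (fun t => cel R j (1 / 2) t) = 1 →
      ∃ d : Amb ι κ → G, Gau (AA R ∩ BB R j) d E (fun _ _ => 1)) ∧
    (∃ k : Amb ι κ → Amb ι κ → Multiplicative ℤ, Coc (AA R ∩ BB R j) k ∧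
      PP k (fun t => cel R j (1 / 2) t) = Multiplicative.ofAdd 1)

/-- C. The complex of a presentation is an instance of the abstract situation. -/
def StC : Prop :=
  ∀ (ι κ : Type) [Fintype ι] [DecidableEq ι] [Fintype κ] [DecidableEq κ] (R : κ → Wd ι),
    ∃ g : Geo R (Amb ι κ), g.X = XX R

end Pool.Agent.Helper74.SS
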