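import Pool.Agent.Helper74.SS.Defs

/-! Project SS: the abstract geometric situation, the relation `Rep`, and the interface `TopD` between
topology and algebra. -/

set_option autoImplicit false

open Set Metric Filter Topology

namespace Pool.Agent.Helper74.SS

/-- The abstract form of the 2-complex of a presentation: `X = A ∪ ⋃ B j`, where `A` is a
neighbourhood of the 1-skeleton and the `B j` are disjoint discs. -/
structure Geo {ι κ : Type} (R : κ → Wd ι) (V : Type) [MetricSpace V] where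
  X : Set V
  A : Set V
  B : κ → Set V
  /-- the base point -/
  o : V
  /-- the loops of the 1-skeleton -/
  wp : ι → ℝ → V
  /-- a loop in the annulus `A ∩ B j` -/
  lam : κ → ℝ → V
  /-- a path in `A` from the base point to `lam j 0` -/
  rad : κ → ℝ → V
  cpt : IsCompact X
  oA : o ∈ A
  AX : A ⊆ X
  BX : ∀ j, B j ⊆ X
  wpP : ∀ i, IsPath A (wp i) ∧ wp i 0 = o ∧ wp i 1 = o
  radP : ∀ j, IsPath A (rad j) ∧ rad j 0 = o ∧ rad j 1 = lam j 0
  lamP : ∀ j, IsPath (A ∩ B j) (lam j) ∧ lam j 1 = lam j 0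
  leb : ∃ ε > 0, ∀ x ∈ X, (∀ y ∈ X, dist x y < ε → y ∈ A) ∨
    ∃ j, ∀ y ∈ X, dist x y < ε → y ∈ B j
  disj : ∀ j k, j ≠ k → Disjoint (B j) (B k)
  conn : ∀ x ∈ X, ∃ γ, IsPath X γ ∧ γ 0 = o ∧ γ 1 = x
  Bcon : ∀ j, Contr (B j)
  Nconn : ∀ j, ∀ x ∈ A ∩ B j, ∃ γ, IsPath (A ∩ B j) γ ∧ γ 0 = lam j 0 ∧ γ 1 = x
  Ntriv : ∀ (j : κ) (G : Type) [Group G] (E : V → V → G), Coc (A ∩ B j) E → PP E (lam j) = 1 →
    ∃ d : V → G, Gau (A ∩ B j) d E (fun _ _ => 1)
  Nex : ∀ j, ∃ k : V → V → Multiplicative ℤ,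
    Coc (A ∩ B j) k ∧ PP k (lam j) = Multiplicative.ofAdd 1
  Aex : ∀ (G : Type) [Group G] (g : ι → G), ∃ E : V → V → G, Coc A E ∧ ∀ i, PP E (wp i) = g i
  Auniq : ∀ (G : Type) [Group G] (E E' : V → V → G), Coc A E → Coc A E' →
    (∀ i, PP E (wp i) = PP E' (wp i)) → ∃ c : V → G, c o = 1 ∧ Gau A c E E'
  Arel : ∀ (G : Type) [Group G] (E : V → V → G), Coc A E → ∀ j,
    PP E (rad j) * PP E (lam j) * (PP E (rad j))⁻¹ = wev (fun i => PP E (wp i)) (R j)
  AH2 : ∀ (K : Type) [CommRing K] (e : V → V → Kˣ) (ω : V → V → V → K),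
    Coc A e → Z2 A e ω → B2 A e ω

/-- `Rep g e ω c`: the 2-cocycle `ω` on `X` is represented by the cellular cochain `c`. -/
def Rep {ι κ : Type} {R : κ → Wd ι} {V : Type} [MetricSpace V] (g : Geo R V) {K : Type}
    [CommRing K] (e : V → V → Kˣ) (ω : V → V → V → K) (c : κ → K) : Prop :=
  ∃ (η : V → V → K) (ψ : κ → V → V → K),
    Nr3 g.A ω (d1 e η) ∧ (∀ j, Nr3 (g.B j) ω (d1 e (ψ j))) ∧
    ∀ j, c j = ((PP e (g.rad j) : Kˣ) : K) * integ e (fun x y => ψ j x y - η x y) (g.lam j)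

/-- A homotopy equivalence between subsets of metric spaces. -/
structure HE {V V' : Type} [PseudoMetricSpace V] [PseudoMetricSpace V'] (S : Set V) (S' : Set V')
    (F : V → V') (G : V' → V) (h : V → ℝ → V) (k : V' → ℝ → V') : Prop where
  hF : Mor S S' F
  hG : Mor S' S G
  hh : HMor S S h
  h0 : ∀ x ∈ S, h x 0 = x
  h1 : ∀ x ∈ S, h x 1 = G (F x)
  hk : HMor S' S' k
  k0 : ∀ y ∈ S', k y 0 = y
  k1 : ∀ y ∈ S', k y 1 = F (G y)

/-- What we use about a homotopy equivalence between the 2-complexes of two presentations: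
an isomorphism `θ` of the groups and, for every commutative ring `A` and every character `χ`, an
`A`-linear relation `T` between `A^κ'` and `A^κ` which is total on both sides, respects
coboundaries, ring homomorphisms, and cup products. -/
structure TD {ι κ ι' κ' : Type} (R : κ → Wd ι) (R' : κ' → Wd ι') (θ : PG R ≃* PG R')
    (T : ∀ (A : Type) [CommRing A], (PG R' →* Aˣ) → (κ' → A) → (κ → A) → Prop) : Prop where
  lin : ∀ (A : Type) [CommRing A] (χ : PG R' →* Aˣ) (c' d' : κ' → A) (c d : κ → A) (a : A),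
    T A χ c' c → T A χ d' d → T A χ (fun j => c' j + a * d' j) (fun j => c j + a * d j)
  totl : ∀ (A : Type) [CommRing A] (χ : PG R' →* Aˣ) (c' : κ' → A), ∃ c, T A χ c' c
  totr : ∀ (A : Type) [CommRing A] (χ : PG R' →* Aˣ) (c : κ → A), ∃ c', T A χ c' c
  bd : ∀ (A : Type) [CommRing A] (χ : PG R' →* Aˣ) (c' : κ' → A) (c : κ → A), T A χ c' c →
    Bd R' (fun i => χ (gen R' i)) c' → Bd R (fun i => χ (θ (gen R i))) c
  nat : ∀ (A A' : Type) [CommRing A] [CommRing A'] (f : A →+* A') (χ : PG R' →* Aˣ)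
    (c' : κ' → A) (c : κ → A), T A χ c' c →
    T A' ((Units.map (f : A →* A')).comp χ) (fun j => f (c' j)) (fun j => f (c j))
  cup : ∀ (A : Type) [CommRing A] (μ : PG R' →* Heq A),
    T A ((Heq.uHom A).comp μ) (Cup R' fun i => μ (gen R' i)) (Cup R fun i => μ (θ (gen R i)))

/-- The interface between topology and algebra. -/
def TopD {ι κ ι' κ' : Type} (R : κ → Wd ι) (R' : κ' → Wd ι') : Prop :=
  ∃ (θ : PG R ≃* PG R')
    (T : ∀ (A : Type) [CommRing A], (PG R' →* Aˣ) → (κ' → A) → (κ → A) → Prop), TD R R' θ T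

/-! ### Statements of Part D -/

/-- D1. The holonomy of a cocycle on `X` is a homomorphism from the presented group. -/
def StD1 : Prop :=
  ∀ (ι κ V G : Type) [Finite κ] [MetricSpace V] [Group G] (R : κ → Wd ι) (g : Geo R V)
    (E : V → V → G), Coc g.X E → ∃ f : PG R →* G, ∀ i, f (gen R i) = PP E (g.wp i)

/-- D2. Existence of cocycles on `X`. -/
def StD2 : Prop :=
  ∀ (ι κ V G : Type) [Finite κ] [MetricSpace V] [Group G] (R : κ → Wd ι) (g : Geo R V)
    (a : ι → G), (∀ j, wev a (R j) = 1) → ∃ E : V → V → G, Coc g.X E ∧ ∀ i, PP E (g.wp i) = a i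

/-- D3. Uniqueness of cocycles on `X`. -/
def StD3 : Prop :=
  ∀ (ι κ V G : Type) [Finite κ] [MetricSpace V] [Group G] (R : κ → Wd ι) (g : Geo R V)
    (E E' : V → V → G), Coc g.X E → Coc g.X E' → (∀ i, PP E (g.wp i) = PP E' (g.wp i)) →
    ∃ c : V → G, c g.o = 1 ∧ Gau g.X c E E'

/-! ### Statements of Part E -/

/-- E1. Every 2-cocycle is represented. -/
def StE1 : Prop :=
  ∀ (ι κ V K : Type) [Finite κ] [MetricSpace V] [CommRing K] (R : κ → Wd ι) (g : Geo R V)
    (e : V → V → Kˣ) (ω : V → V → V → K), Coc g.X e → Z2 g.X e ω → ∃ c, Rep g e ω c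

/-- E2. Two representatives differ by a coboundary. -/
def StE2 : Prop :=
  ∀ (ι κ V K : Type) [Finite κ] [MetricSpace V] [CommRing K] (R : κ → Wd ι) (g : Geo R V)
    (e : V → V → Kˣ) (ω : V → V → V → K) (c c' : κ → K), Coc g.X e → Z2 g.X e ω →
    Rep g e ω c → Rep g e ω c' → Bd R (fun i => PP e (g.wp i)) (fun j => c j - c' j)

/-- E3. A representative may be changed by a coboundary. -/
def StE3 : Prop :=
  ∀ (ι κ V K : Type) [Finite κ] [MetricSpace V] [CommRing K] (R : κ → Wd ι) (g : Geo R V)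
    (e : V → V → Kˣ) (ω : V → V → V → K) (c b : κ → K), Coc g.X e → Z2 g.X e ω →
    Rep g e ω c → Bd R (fun i => PP e (g.wp i)) b → Rep g e ω (fun j => c j + b j)

/-- E4. Linearity. -/
def StE4 : Prop :=
  ∀ (ι κ V K : Type) [Finite κ] [MetricSpace V] [CommRing K] (R : κ → Wd ι) (g : Geo R V)
    (e : V → V → Kˣ) (ω ω' : V → V → V → K) (c c' : κ → K) (a : K), Coc g.X e → Z2 g.X e ω →
    Z2 g.X e ω' → Rep g e ω c → Rep g e ω' c' →
    Rep g e (fun x y z => ω x y z + a * ω' x y z) (fun j => c j + a * c' j)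

/-- E5. Coboundaries are represented by zero, and what is represented by zero is a coboundary. -/
def StE5 : Prop :=
  ∀ (ι κ V K : Type) [Finite κ] [MetricSpace V] [CommRing K] (R : κ → Wd ι) (g : Geo R V)
    (e : V → V → Kˣ) (ω : V → V → V → K), Coc g.X e → Z2 g.X e ω →
    (Rep g e ω (fun _ => 0) ↔ B2 g.X e ω)

/-- E6. Every cellular cochain represents some 2-cocycle. -/
def StE6 : Prop :=
  ∀ (ι κ V K : Type) [Finite κ] [MetricSpace V] [CommRing K] (R : κ → Wd ι) (g : Geo R V)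
    (e : V → V → Kˣ) (c : κ → K), Coc g.X e → ∃ ω, Z2 g.X e ω ∧ Rep g e ω c

/-- E7. Ring homomorphisms. -/
def StE7 : Prop :=
  ∀ (ι κ V K K' : Type) [Finite κ] [MetricSpace V] [CommRing K] [CommRing K'] (R : κ → Wd ι)
    (g : Geo R V) (f : K →+* K') (e : V → V → Kˣ) (ω : V → V → V → K) (c : κ → K), Coc g.X e →
    Z2 g.X e ω → Rep g e ω c →
    Rep g (fun x y => Units.map (f : K →* K') (e x y)) (fun x y z => f (ω x y z)) (fun j => f (c j))

/-- E8. Cup products. -/
def StE8 : Prop :=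
  ∀ (ι κ V K : Type) [Finite κ] [MetricSpace V] [CommRing K] (R : κ → Wd ι) (g : Geo R V)
    (E : V → V → Heq K), Coc g.X E →
    Z2 g.X (fun x y => (E x y).u) (fun x y z => (E x y).n * ((E x y).u * (E y z).m)) ∧
    Rep g (fun x y => (E x y).u) (fun x y z => (E x y).n * ((E x y).u * (E y z).m))
      (Cup R fun i => PP E (g.wp i))

/-! ### Statements of Part F -/

/-- F1. The homomorphism induced by a homotopy equivalence is bijective. -/
def StF1 : Prop :=
  ∀ (ι κ ι' κ' V V' : Type) [Finite κ] [Finite κ'] [MetricSpace V] [MetricSpace V']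
    (R : κ → Wd ι) (R' : κ' → Wd ι') (g : Geo R V) (g' : Geo R' V') (F : V → V') (G : V' → V)
    (h : V → ℝ → V) (k : V' → ℝ → V') (E' : V' → V' → PG R') (θ : PG R →* PG R'),
    HE g.X g'.X F G h k → Coc g'.X E' → (∀ i, PP E' (g'.wp i) = gen R' i) →
    (∀ i, θ (gen R i) = PP (fun x y => E' (F x) (F y)) (g.wp i)) → Function.Bijective θ

/-- F2. The pull-back along a homotopy equivalence is surjective on second cohomology. -/
def StF2 : Prop :=
  ∀ (ι κ ι' κ' V V' K : Type) [Finite κ] [Finite κ'] [MetricSpace V] [MetricSpace V'] [CommRing K]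
    (R : κ → Wd ι) (R' : κ' → Wd ι') (g : Geo R V) (g' : Geo R' V') (F : V → V') (G : V' → V)
    (h : V → ℝ → V) (k : V' → ℝ → V') (e : V' → V' → Kˣ) (ω : V → V → V → K),
    HE g.X g'.X F G h k → Coc g'.X e → Z2 g.X (fun x y => e (F x) (F y)) ω →
    ∃ ω' : V' → V' → V' → K, Z2 g'.X e ω' ∧
      B2 g.X (fun x y => e (F x) (F y)) (fun x y z => ω x y z - ω' (F x) (F y) (F z))

/-- F. A homotopy equivalence gives the data `TopD`. -/
def StF : Prop :=
  ∀ (ι κ ι' κ' V V' : Type) [Finite κ] [Finite κ'] [MetricSpace V] [MetricSpace V']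
    (R : κ → Wd ι) (R' : κ' → Wd ι') (g : Geo R V) (g' : Geo R' V') (F : V → V') (G : V' → V)
    (h : V → ℝ → V) (k : V' → ℝ → V'), HE g.X g'.X F G h k → TopD R R'

end Pool.Agent.Helper74.SS
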