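import Pool.Agent.Helper74.SS.P.A1
import Pool.Agent.Helper74.SS.P.A10
import Pool.Agent.Helper74.SS.P.A2
import Pool.Agent.Helper74.SS.P.A3
import Pool.Agent.Helper74.SS.P.A4
import Pool.Agent.Helper74.SS.P.A5
import Pool.Agent.Helper74.SS.P.A6
import Pool.Agent.Helper74.SS.P.A7
import Pool.Agent.Helper74.SS.P.A8
import Pool.Agent.Helper74.SS.P.A9
import Pool.Agent.Helper74.SS.P.B1
import Pool.Agent.Helper74.SS.P.B2
import Pool.Agent.Helper74.SS.P.B3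
import Pool.Agent.Helper74.SS.P.B4
import Pool.Agent.Helper74.SS.P.B5
import Pool.Agent.Helper74.SS.P.B6
import Pool.Agent.Helper74.SS.P.B7
import Pool.Agent.Helper74.SS.P.C
import Pool.Agent.Helper74.SS.P.C0
import Pool.Agent.Helper74.SS.P.C1
import Pool.Agent.Helper74.SS.P.C10
import Pool.Agent.Helper74.SS.P.C11
import Pool.Agent.Helper74.SS.P.C12
import Pool.Agent.Helper74.SS.P.C13
import Pool.Agent.Helper74.SS.P.C2
import Pool.Agent.Helper74.SS.P.C3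
import Pool.Agent.Helper74.SS.P.C4
import Pool.Agent.Helper74.SS.P.C5
import Pool.Agent.Helper74.SS.P.C6
import Pool.Agent.Helper74.SS.P.C7
import Pool.Agent.Helper74.SS.P.C8a
import Pool.Agent.Helper74.SS.P.C8b
import Pool.Agent.Helper74.SS.P.C9a
import Pool.Agent.Helper74.SS.P.C9b
import Pool.Agent.Helper74.SS.P.D1
import Pool.Agent.Helper74.SS.P.D2
import Pool.Agent.Helper74.SS.P.D3
import Pool.Agent.Helper74.SS.P.E1
import Pool.Agent.Helper74.SS.P.E2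
import Pool.Agent.Helper74.SS.P.E3
import Pool.Agent.Helper74.SS.P.E4
import Pool.Agent.Helper74.SS.P.E5
import Pool.Agent.Helper74.SS.P.E6
import Pool.Agent.Helper74.SS.P.E7
import Pool.Agent.Helper74.SS.P.E8
import Pool.Agent.Helper74.SS.P.F
import Pool.Agent.Helper74.SS.P.F1
import Pool.Agent.Helper74.SS.P.F2
import Pool.Agent.Helper74.SS.P.G1
import Pool.Agent.Helper74.SS.P.G10
import Pool.Agent.Helper74.SS.P.G11
import Pool.Agent.Helper74.SS.P.G2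
import Pool.Agent.Helper74.SS.P.G3
import Pool.Agent.Helper74.SS.P.G4
import Pool.Agent.Helper74.SS.P.G5
import Pool.Agent.Helper74.SS.P.G6
import Pool.Agent.Helper74.SS.P.G7
import Pool.Agent.Helper74.SS.P.G8
import Pool.Agent.Helper74.SS.P.G9
import Pool.Agent.Helper74.SS.P.H1
import Pool.Agent.Helper74.SS.P.H2
import Pool.Agent.Helper74.SS.P.H3
import Pool.Agent.Helper74.SS.P.H4
import Pool.Agent.Helper74.SS.P.H5
import Pool.Agent.Helper74.SS.P.H6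
import Pool.Agent.Helper74.SS.P.H7
import Pool.Agent.Helper74.SS.P.H8
import Pool.Agent.Helper74.SS.P.H9
import Pool.Agent.Helper74.SS.P.I1
import Pool.Agent.Helper74.SS.P.I2
import Pool.Agent.Helper74.SS.P.I3
import Pool.Agent.Helper74.SS.P.I4
import Pool.Agent.Helper74.SS.P.J
import Pool.Agent.Helper74.SS.P.J1
import Pool.Agent.Helper74.SS.P.J2
import Pool.Agent.Helper74.SS.P.J3
import Pool.Agent.Helper74.SS.P.J4
import Pool.Agent.Helper74.SS.P.J5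
import Pool.Agent.Helper74.SS.P.J6
import Pool.Agent.Helper74.SS.P.J7
import Pool.Agent.Helper74.SS.P.J8
import Pool.Agent.Helper74.SS.P.K
import Pool.Agent.Helper74.SS.P.K1
import Pool.Agent.Helper74.SS.P.NA
import Pool.Agent.Helper74.SS.P.NB
import Pool.Agent.Helper74.SS.P.Neg
import Pool.Agent.Helper74.SS.P.Spin

/-! Project SS: assembly of all modules. -/

set_option autoImplicit false

namespace Pool.Agent.Helper74.SS

theorem tC1 : StC1 := pC1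
theorem tC2 : StC2 := pC2 tC1
theorem tC5 : StC5 := pC5 tC1 tC2
theorem tC6 : StC6 := pC6 tC2
theorem tC0 : StC0 := pC0
theorem tC3 : StC3 := pC3 tC0 tC1 tC2
theorem tC4 : StC4 := pC4 tC1 tC2 tC3
theorem tC8a : StC8a := pC8a
theorem tC9a : StC9a := pC9a tC1 tC8a
theorem tA1' : StA1' := pA1'
theorem tA4 : StA4 := pA4 tA1'
theorem tA1 : StA1 := pA1
theorem tA7 : StA7 := pA7 tA1
theorem tA5 : StA5 := pA5 tA1'
theorem tA3 : StA3 := pA3 tA1'
theorem tA9 : StA9 := pA9 tA7 tA5 tA3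
theorem tC8b : StC8b := pC8b tC1 tA4 tA9
theorem tC9b : StC9b := pC9b tC1 tC8b tA4
theorem tC10 : StC10 := pC10 tC1
theorem tA6 : StA6 := pA6
theorem tB1 : StB1 := pB1
theorem tB2 : StB2 := pB2
theorem tB3 : StB3 := pB3
theorem tB4 : StB4 := pB4 tA1 tB2 tB3
theorem tB6 : StB6 := pB6 tB3 tB2
theorem tC11 : StC11 := pC11 tC1 tC2 tC4 tC9a tC9b tC10 tA3 tA4 tA6 tA7 tB1 tB2 tB4 tB6
theorem tA2 : StA2 := pA2 tA1'
theorem tA8 : StA8 := pA8 tA4 tA5 tA7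
theorem tC12 : StC12 := pC12 tC1 tC2 tA2 tA3 tA8
theorem tC7 : StC7 := pC7 tC1 tC2
theorem tC13 : StC13 := pC13 tC1 tC2 tC7 tC8a tC8b tA4 tA6 tA7
theorem tC : StC := pC tC1 tC2 tC5 tC6 tC11 tC12 tC13
theorem tD1 : StD1 := pD1 tA9
theorem tD2 : StD2 := pD2 tA3
theorem tB5 : StB5 := pB5 tB4 tA7
theorem tE1 : StE1 := pE1 tB5
theorem tB7 : StB7 := pB7 tA1' tA3 tA4 tA9 tB1
theorem tE2 : StE2 := pE2 tB1 tB7
theorem tE3 : StE3 := pE3 tB1 tB7 tA3 tA4 tA5 tA6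
theorem tE4 : StE4 := pE4 tB7
theorem tE5 : StE5 := pE5 tB1 tB7
theorem tE6 : StE6 := pE6 tA3 tA4 tA5 tA9 tB1
theorem tE7 : StE7 := pE7 tA4 tB7
theorem tE8 : StE8 := pE8 tA3 tA4 tA5 tA9
theorem tA10 : StA10 := pA10
theorem tD3 : StD3 := pD3 tA9 tA10
theorem tF1 : StF1 := pF1 tA4 tA5 tA6 tA7 tD1 tD2 tD3
theorem tF2 : StF2 := pF2 tA6 tA7 tA10 tB2 tB4
theorem tF : StF := pF tA4 tB1 tB2 tD1 tD2 tE1 tE2 tE3 tE4 tE5 tE6 tE7 tE8 tF1 tF2
theorem tH1 : StH1 := pH1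
theorem tH2 : StH2 := pH2
theorem tH3 : StH3 := pH3
theorem tH4 : StH4 := pH4 tH2 tH3
theorem tH5 : StH5 := pH5 tH2 tA1' tA2 tA3 tA8
theorem tH6 : StH6 := pH6 tH2 tA1'
theorem tH7 : StH7 := pH7
theorem tH8 : StH8 := pH8 tH1 tH4 tH5 tH6 tH7
theorem tH9 : StH9 := pH9
theorem tSpin : StSpin := pSpin tH8 tH9
theorem tG1 : StG1 := pG1
theorem tG2 : StG2 := pG2 tG1
theorem tG4 : StG4 := pG4 tG1
theorem tG5 : StG5 := pG5 tG1 tG2
theorem tG6 : StG6 := pG6 tG2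
theorem tG7 : StG7 := pG7 tG1 tG5 tG6
theorem tG8 : StG8 := pG8 tG2
theorem tG9 : StG9 := pG9 tG2
theorem tG10 : StG10 := pG10 tG8 tG9
theorem tNA : StNA := pNA tG1 tG2 tG4 tG7 tG8 tG10
theorem tG3 : StG3 := pG3 tG1 tG2
theorem tG11 : StG11 := pG11 tG3 tG4 tG7
theorem tNB : StNB := pNB tG1 tG2 tG4 tG7 tG11
theorem tNeg : StNeg := pNeg tSpin tNA tNB
theorem tI1 : StI1 := pI1
theorem tI2 : StI2 := pI2 tC0
theorem tI3 : StI3 := pI3 tI1 tI2 tC1 tC2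
theorem tI4 : StI4 := pI4 tC5
theorem tJ1 : StJ1 := pJ1 tC1 tC2
theorem tJ2 : StJ2 := pJ2 tC1 tC2
theorem tJ3 : StJ3 := pJ3 tC1 tC2
theorem tJ4 : StJ4 := pJ4 tC1 tC2 tC3
theorem tJ5 : StJ5 := pJ5 tC1 tC2 tC3
theorem tJ6 : StJ6 := pJ6 tJ4 tJ5
theorem tJ7 : StJ7 := pJ7
theorem tJ8 : StJ8 := pJ8 tG1
theorem tJ : StJ := pJ tJ3 tJ6 tJ7 tJ8
theorem tK1 : StK1 := pK1
theorem tK : StK := pK tC tF tNeg tI3 tI4 tJ1 tJ2 tJ tK1 tC2

end Pool.Agent.Helper74.SS
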