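import Mathlib

/-!
Project SS (MP_2a19da_gt): basic definitions.
Everything lives near the diagonal of subsets of (pseudo) metric spaces; no cochain is assumed continuous.
-/

set_option autoImplicit false

open Set Metric Filter Topology

namespace Pool.Agent.Helper74.SS

/-! ### Part A: group valued cocycles near the diagonal and path products -/

section PartA

variable {V V' G : Type} [PseudoMetricSpace V] [PseudoMetricSpace V'] [Group G]

/-- `E` is a cocycle near the diagonal of `S`. -/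
def Coc (S : Set V) (E : V → V → G) : Prop :=
  ∃ ε > 0, ∀ x ∈ S, ∀ y ∈ S, ∀ z ∈ S, dist x y < ε → dist x z < ε → E x y * E y z = E x z

/-- `c` is a gauge transformation from `E` to `E'` on `S`. -/
def Gau (S : Set V) (c : V → G) (E E' : V → V → G) : Prop :=
  ∃ ε > 0, ∀ x ∈ S, ∀ y ∈ S, dist x y < ε → c x * E' x y = E x y * c y

/-- The product of `E` along the `N` equal steps of the path `γ`. -/
noncomputable def pp (E : V → V → G) (γ : ℝ → V) (N : ℕ) : G :=
  ((List.range N).map fun k => E (γ ((k : ℝ) / N)) (γ (((k : ℝ) + 1) / N))).prod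

open Classical in
/-- The path product: the eventual value of `pp E γ N`. -/
noncomputable def PP (E : V → V → G) (γ : ℝ → V) : G :=
  if h : ∃ g, ∀ᶠ N in atTop, pp E γ N = g then h.choose else 1

/-- A path in `S` parametrised by `[0,1]` (only the values on `[0,1]` matter). -/
def IsPath (S : Set V) (γ : ℝ → V) : Prop :=
  ContinuousOn γ (Icc 0 1) ∧ MapsTo γ (Icc 0 1) S

/-- A map `S → S'`. -/
def Mor (S : Set V) (S' : Set V') (F : V → V') : Prop :=
  UniformContinuousOn F S ∧ MapsTo F S S'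

/-- A homotopy of maps `S → S'`. -/
def HMor (S : Set V) (S' : Set V') (h : V → ℝ → V') : Prop :=
  UniformContinuousOn (fun p : V × ℝ => h p.1 p.2) (S ×ˢ Icc (0 : ℝ) 1) ∧
    ∀ x ∈ S, ∀ τ ∈ Icc (0 : ℝ) 1, h x τ ∈ S'

/-- `S` is contractible to one of its points. -/
def Contr (S : Set V) : Prop :=
  ∃ (h : V → ℝ → V) (x0 : V), HMor S S h ∧ x0 ∈ S ∧ ∀ x ∈ S, h x 0 = x ∧ h x 1 = x0

/-- The set `S` has dimension at most one, in the form in which we use it: there are small
(not necessarily continuous) displacements `v` of `S` such that the images of three nearby points are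
never three different points. -/
def Dim1 (S : Set V) : Prop :=
  ∀ ε0 > 0, ∃ v : V → V, MapsTo v S S ∧ (∀ x ∈ S, dist x (v x) < ε0) ∧
    ∃ ε1 > 0, ∀ x ∈ S, ∀ y ∈ S, ∀ z ∈ S, dist x y < ε1 → dist x z < ε1 →
      v x = v y ∨ v y = v z ∨ v x = v z

end PartA

/-! ### Part B: twisted cochains with values in a commutative ring -/

section PartB

variable {V A : Type} [PseudoMetricSpace V] [CommRing A]

/-- twisted coboundary of a 0-cochain -/
def d0 (e : V → V → Aˣ) (g : V → A) : V → V → A := fun x y => (e x y : A) * g y - g x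

/-- twisted coboundary of a 1-cochain -/
def d1 (e : V → V → Aˣ) (φ : V → V → A) : V → V → V → A :=
  fun x y z => (e x y : A) * φ y z - φ x z + φ x y

/-- equality near the diagonal of `S`, for functions of two variables -/
def Nr2 {B : Type} (S : Set V) (φ φ' : V → V → B) : Prop :=
  ∃ ε > 0, ∀ x ∈ S, ∀ y ∈ S, dist x y < ε → φ x y = φ' x y

/-- equality near the diagonal of `S`, for functions of three variables -/
def Nr3 {B : Type} (S : Set V) (ω ω' : V → V → V → B) : Prop :=
  ∃ ε > 0, ∀ x ∈ S, ∀ y ∈ S, ∀ z ∈ S, dist x y < ε → dist x z < ε → ω x y z = ω' x y z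

/-- twisted 1-cocycles -/
def Z1 (S : Set V) (e : V → V → Aˣ) (φ : V → V → A) : Prop := Nr3 S (d1 e φ) (fun _ _ _ => 0)

/-- twisted 2-cocycles -/
def Z2 (S : Set V) (e : V → V → Aˣ) (ω : V → V → V → A) : Prop :=
  ∃ ε > 0, ∀ w ∈ S, ∀ x ∈ S, ∀ y ∈ S, ∀ z ∈ S, dist w x < ε → dist w y < ε → dist w z < ε →
    (e w x : A) * ω x y z - ω w y z + ω w x z - ω w x y = 0

/-- twisted 2-coboundaries -/
def B2 (S : Set V) (e : V → V → Aˣ) (ω : V → V → V → A) : Prop :=
  ∃ φ : V → V → A, Nr3 S ω (d1 e φ)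

end PartB

/-! ### The affine group and the Heisenberg type group over a commutative ring -/

/-- The affine group `(m,u)(m',u') = (m + u m', u u')`. -/
@[ext] structure Aff (A : Type) [CommRing A] where
  m : A
  u : Aˣ

namespace Aff

variable {A : Type} [CommRing A]

instance : Mul (Aff A) := ⟨fun a b => ⟨a.m + a.u * b.m, a.u * b.u⟩⟩
instance : One (Aff A) := ⟨⟨0, 1⟩⟩
instance : Inv (Aff A) := ⟨fun a => ⟨-((a.u⁻¹ : Aˣ) * a.m), a.u⁻¹⟩⟩

@[simp] theorem mul_m (a b : Aff A) : (a * b).m = a.m + a.u * b.m := rfl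
@[simp] theorem mul_u (a b : Aff A) : (a * b).u = a.u * b.u := rfl
@[simp] theorem one_m : (1 : Aff A).m = 0 := rfl
@[simp] theorem one_u : (1 : Aff A).u = 1 := rfl
@[simp] theorem inv_m (a : Aff A) : (a⁻¹).m = -((a.u⁻¹ : Aˣ) * a.m) := rfl
@[simp] theorem inv_u (a : Aff A) : (a⁻¹).u = a.u⁻¹ := rfl

instance : Group (Aff A) where
  mul_assoc a b c := by
    ext
    · simp only [mul_m, mul_u, Units.val_mul]; ring
    · simp only [mul_u, mul_assoc]
  one_mul a := by ext <;> simp
  mul_one a := by ext <;> simp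
  inv_mul_cancel a := by ext <;> simp

/-- the projection to the multiplicative part -/
def uHom (A : Type) [CommRing A] : Aff A →* Aˣ where
  toFun a := a.u
  map_one' := rfl
  map_mul' _ _ := rfl

end Aff

/-- The group of triples `(m,u,n)(m',u',n') = (m + u m', u u', n + n')`. -/
@[ext] structure Heq (A : Type) [CommRing A] where
  m : A
  u : Aˣ
  n : ℤ

namespace Heq

variable {A : Type} [CommRing A]

instance : Mul (Heq A) := ⟨fun a b => ⟨a.m + a.u * b.m, a.u * b.u, a.n + b.n⟩⟩
instance : One (Heq A) := ⟨⟨0, 1, 0⟩⟩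
instance : Inv (Heq A) := ⟨fun a => ⟨-((a.u⁻¹ : Aˣ) * a.m), a.u⁻¹, -a.n⟩⟩

@[simp] theorem mul_m (a b : Heq A) : (a * b).m = a.m + a.u * b.m := rfl
@[simp] theorem mul_u (a b : Heq A) : (a * b).u = a.u * b.u := rfl
@[simp] theorem mul_n (a b : Heq A) : (a * b).n = a.n + b.n := rfl
@[simp] theorem one_m : (1 : Heq A).m = 0 := rfl
@[simp] theorem one_u : (1 : Heq A).u = 1 := rfl
@[simp] theorem one_n : (1 : Heq A).n = 0 := rfl
@[simp] theorem inv_m (a : Heq A) : (a⁻¹).m = -((a.u⁻¹ : Aˣ) * a.m) := rfl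
@[simp] theorem inv_u (a : Heq A) : (a⁻¹).u = a.u⁻¹ := rfl
@[simp] theorem inv_n (a : Heq A) : (a⁻¹).n = -a.n := rfl

instance : Group (Heq A) where
  mul_assoc a b c := by
    ext
    · simp only [mul_m, mul_u, Units.val_mul]; ring
    · simp only [mul_u, mul_assoc]
    · simp only [mul_n, add_assoc]
  one_mul a := by ext <;> simp
  mul_one a := by ext <;> simp
  inv_mul_cancel a := by ext <;> simp

/-- the projection to the multiplicative part -/
def uHom (A : Type) [CommRing A] : Heq A →* Aˣ where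
  toFun a := a.u
  map_one' := rfl
  map_mul' _ _ := rfl

end Heq

/-- The group of quadruples
`(c,m,u,n)(c',m',u',n') = (c + u c' + n u m', m + u m', u u', n + n')`. -/
@[ext] structure Hei (A : Type) [CommRing A] where
  c : A
  m : A
  u : Aˣ
  n : ℤ

namespace Hei

variable {A : Type} [CommRing A]

instance : Mul (Hei A) :=
  ⟨fun a b => ⟨a.c + a.u * b.c + a.n * (a.u * b.m), a.m + a.u * b.m, a.u * b.u, a.n + b.n⟩⟩
instance : One (Hei A) := ⟨⟨0, 0, 1, 0⟩⟩
instance : Inv (Hei A) :=
  ⟨fun a => ⟨-((a.u⁻¹ : Aˣ) * a.c) + a.n * ((a.u⁻¹ : Aˣ) * a.m), -((a.u⁻¹ : Aˣ) * a.m), a.u⁻¹, -a.n⟩⟩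

@[simp] theorem mul_c (a b : Hei A) : (a * b).c = a.c + a.u * b.c + a.n * (a.u * b.m) := rfl
@[simp] theorem mul_m (a b : Hei A) : (a * b).m = a.m + a.u * b.m := rfl
@[simp] theorem mul_u (a b : Hei A) : (a * b).u = a.u * b.u := rfl
@[simp] theorem mul_n (a b : Hei A) : (a * b).n = a.n + b.n := rfl
@[simp] theorem one_c : (1 : Hei A).c = 0 := rfl
@[simp] theorem one_m : (1 : Hei A).m = 0 := rfl
@[simp] theorem one_u : (1 : Hei A).u = 1 := rfl
@[simp] theorem one_n : (1 : Hei A).n = 0 := rfl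
@[simp] theorem inv_c (a : Hei A) :
    (a⁻¹).c = -((a.u⁻¹ : Aˣ) * a.c) + a.n * ((a.u⁻¹ : Aˣ) * a.m) := rfl
@[simp] theorem inv_m (a : Hei A) : (a⁻¹).m = -((a.u⁻¹ : Aˣ) * a.m) := rfl
@[simp] theorem inv_u (a : Hei A) : (a⁻¹).u = a.u⁻¹ := rfl
@[simp] theorem inv_n (a : Hei A) : (a⁻¹).n = -a.n := rfl

instance : Group (Hei A) where
  mul_assoc a b c := by
    ext
    · simp only [mul_c, mul_m, mul_u, mul_n, Units.val_mul]; push_cast; ring
    · simp only [mul_m, mul_u, Units.val_mul]; ring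
    · simp only [mul_u, mul_assoc]
    · simp only [mul_n, add_assoc]
  one_mul a := by ext <;> simp
  mul_one a := by ext <;> simp
  inv_mul_cancel a := by ext <;> simp

/-- forget the first coordinate -/
def toHeq (A : Type) [CommRing A] : Hei A →* Heq A where
  toFun a := ⟨a.m, a.u, a.n⟩
  map_one' := rfl
  map_mul' _ _ := rfl

end Hei

/-- the set theoretic section `(m,u,n) ↦ (0,m,u,n)` -/
def Heq.lift {A : Type} [CommRing A] (h : Heq A) : Hei A := ⟨0, h.m, h.u, h.n⟩

/-- The twisted line integral of `φ` along `γ`. -/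
noncomputable def integ {V A : Type} [PseudoMetricSpace V] [CommRing A]
    (e : V → V → Aˣ) (φ : V → V → A) (γ : ℝ → V) : A :=
  (PP (fun x y => (⟨φ x y, e x y⟩ : Aff A)) γ).m

/-! ### Words and presentations -/

/-- words in the letters `ι` and their inverses -/
abbrev Wd (ι : Type) := List (ι × Bool)

/-- evaluation of a word in a group -/
def wev {ι G : Type} [Group G] (g : ι → G) (w : Wd ι) : G :=
  (w.map fun a => if a.2 then g a.1 else (g a.1)⁻¹).prod

/-- the group presented by the words `R` -/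
abbrev PG {ι κ : Type} (R : κ → Wd ι) : Type :=
  PresentedGroup (Set.range fun j => FreeGroup.mk (R j))

/-- the generators of `PG R` -/
def gen {ι κ : Type} (R : κ → Wd ι) (i : ι) : PG R := PresentedGroup.of i

/-- The image of the twisted coboundary `A^ι → A^κ` (Fox calculus), `χ` the character on generators. -/
def Bd {ι κ A : Type} [CommRing A] (R : κ → Wd ι) (χ : ι → Aˣ) (c : κ → A) : Prop :=
  ∃ m : ι → A, ∀ j, c j = (wev (fun i => (⟨m i, χ i⟩ : Aff A)) (R j)).m

/-- The value of the cup product class on the relators. -/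
def Cup {ι κ A : Type} [CommRing A] (R : κ → Wd ι) (μ : ι → Heq A) : κ → A :=
  fun j => (wev (fun i => (μ i).lift) (R j)).c

end Pool.Agent.Helper74.SS
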