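import Pool.Agent.Helper74.SS.Defs

/-! `pp` as a product over a list of natural numbers. -/

set_option autoImplicit false

namespace Pool.Agent.Helper74.SS

theorem pp_eq {V G : Type} [PseudoMetricSpace V] [Group G] (E : V → V → G) (γ : ℝ → V) (N : ℕ) :
    pp E γ N = ((List.range N).map
      (fun k : ℕ => E (γ ((k : ℝ) / N)) (γ (((k : ℝ) + 1) / N)))).prod := by
  unfold pp
  simp only [bind_pure_comp, List.map_eq_map, List.map_map]
  rfl

end Pool.Agent.Helper74.SS
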