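import Pool.Agent.Helper74.SS.Alg

/-! Project SS: statements of the spin part (Part H): the fundamental group of the general linear
group of a 7-dimensional space detects the rotation loop. -/

set_option autoImplicit false

open Set Metric Filter Topology
open scoped Matrix.Norms.Elementwise

namespace Pool.Agent.Helper74.SS

/-- real `8 × 8` matrices -/
abbrev M8 : Type := Matrix (Fin 8) (Fin 8) ℝ

/-- A family of real gamma matrices: skew, of square `-1`, anticommuting, with trivial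
commutant. -/
structure Gam {n : Type} (γ : n → M8) : Prop where
  tr : ∀ i, (γ i).transpose = -γ i
  sq : ∀ i, γ i * γ i = -1
  anti : ∀ i j, i ≠ j → γ i * γ j = -(γ j * γ i)
  comm : ∀ X : M8, (∀ i, X * γ i = γ i * X) → ∃ c : ℝ, X = c • (1 : M8)

/-- the transformed family -/
def gm {n : Type} [Fintype n] (γ : n → M8) (g : Matrix n n ℝ) (i : n) : M8 := ∑ j, g j i • γ j

/-- `M` is an orthogonal intertwiner for `g` -/
def Itw {n : Type} [Fintype n] (γ : n → M8) (g : Matrix n n ℝ) (M : M8) : Prop :=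
  (∀ i, gm γ g i * M = M * γ i) ∧ M.transpose * M = 1 ∧ M * M.transpose = 1

/-- the orthogonal group as a set of matrices -/
def OO (n : Type) [Fintype n] [DecidableEq n] : Set (Matrix n n ℝ) :=
  {g | g * g.transpose = 1 ∧ g.transpose * g = 1}

/-- the index set of size seven -/
abbrev N7 : Type := I6 ⊕ Unit

/-- H1. The octonionic gamma matrices. -/
def StH1 : Prop := ∃ γ : N7 → M8, Gam γ

/-- H2. Algebra of intertwiners. -/
def StH2 : Prop :=
  ∀ (n : Type) [Fintype n] [DecidableEq n] (γ : n → M8), Gam γ →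
    (∀ g M M', Itw γ g M → Itw γ g M' → M' = M ∨ M' = -M) ∧
    (∀ g h M M', Itw γ g M → Itw γ h M' → Itw γ (g * h) (M * M')) ∧
    Itw γ 1 1 ∧ (∀ g ∈ OO n, ∀ M, Itw γ g M → Itw γ g.transpose M.transpose) ∧
    (∀ g M, Itw γ g M → Itw γ g (-M))

/-- H3. Intertwiners near the identity. -/
def StH3 : Prop :=
  ∀ (n : Type) [Fintype n] [DecidableEq n] (γ : n → M8), Gam γ →
    ∃ S : Matrix n n ℝ → M8,
      (∃ ε > 0, ∀ g ∈ OO n, (∀ a b, |g a b - (1 : Matrix n n ℝ) a b| < ε) →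
        Itw γ g (S g) ∧ 0 < S g 0 0) ∧
      (∀ η > 0, ∃ ε > 0, ∀ g ∈ OO n, (∀ a b, |g a b - (1 : Matrix n n ℝ) a b| < ε) →
        ∀ c d, |S g c d - (1 : M8) c d| < η)

/-- The properties of the cocycle `E` on the orthogonal group. -/
structure EOK {n : Type} [Fintype n] [DecidableEq n] (γ : n → M8)
    (E : Matrix n n ℝ → Matrix n n ℝ → M8ˣ) : Prop where
  coc : Coc (OO n) E
  itw : ∃ ε > 0, ∀ x ∈ OO n, ∀ y ∈ OO n, dist x y < ε →
    Itw γ (x.transpose * y) (E x y : M8) ∧ 0 < (E x y : M8) 0 0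
  inv : ∀ c ∈ OO n, ∀ x y, E (c * x) (c * y) = E x y

/-- H4. The spin cocycle on the orthogonal group. -/
def StH4 : Prop :=
  ∀ (n : Type) [Fintype n] [DecidableEq n] (γ : n → M8), Gam γ →
    ∃ E : Matrix n n ℝ → Matrix n n ℝ → M8ˣ, EOK γ E

open Classical in
/-- the invariant of a loop -/
noncomputable def wO {n : Type} [Fintype n] [DecidableEq n]
    (E : Matrix n n ℝ → Matrix n n ℝ → M8ˣ) (δ : ℝ → Matrix n n ℝ) : ℤ :=
  if PP E δ = 1 then 1 else -1

/-- loops in a set of matrices -/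
def Lp {n : Type} [Fintype n] [DecidableEq n] (S : Set (Matrix n n ℝ)) (δ : ℝ → Matrix n n ℝ) :
    Prop :=
  ContinuousOn δ (Icc 0 1) ∧ MapsTo δ (Icc 0 1) S ∧ δ 0 = δ 1

/-- The properties of the invariant `w` of loops in `S` (`S = OO n` or the general linear
group). -/
structure WOK {n : Type} [Fintype n] [DecidableEq n] (S : Set (Matrix n n ℝ))
    (w : (ℝ → Matrix n n ℝ) → ℤ) : Prop where
  pm : ∀ δ, Lp S δ → w δ = 1 ∨ w δ = -1
  mul : ∀ δ δ', Lp S δ → Lp S δ' → δ' 0 = 1 → w (fun t => δ t * δ' t) = w δ * w δ'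
  left : ∀ c ∈ S, ∀ δ, Lp S δ → w (fun t => c * δ t) = w δ
  hom : ∀ h : ℝ → ℝ → Matrix n n ℝ,
    ContinuousOn (fun p : ℝ × ℝ => h p.1 p.2) (Icc 0 1 ×ˢ Icc 0 1) →
    (∀ t ∈ Icc (0 : ℝ) 1, ∀ τ ∈ Icc (0 : ℝ) 1, h t τ ∈ S) →
    (∀ τ ∈ Icc (0 : ℝ) 1, h 0 τ = h 1 τ) → w (fun t => h t 0) = w (fun t => h t 1)

/-- H5. The invariant of loops in the orthogonal group. -/
def StH5 : Prop :=
  ∀ (n : Type) [Fintype n] [DecidableEq n] (γ : n → M8) (E : Matrix n n ℝ → Matrix n n ℝ → M8ˣ),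
    Gam γ → EOK γ E → WOK (OO n) (wO E)

/-- The rotation loop in the coordinates `a`, `b`. -/
noncomputable def rotL {n : Type} [DecidableEq n] (a b : n) (t : ℝ) : Matrix n n ℝ :=
  fun i j => if i = a ∧ j = a ∨ i = b ∧ j = b then Real.cos (2 * Real.pi * t)
    else if i = a ∧ j = b then Real.sin (2 * Real.pi * t)
    else if i = b ∧ j = a then -Real.sin (2 * Real.pi * t)
    else if i = j then 1 else 0

/-- H6. The rotation loop has invariant `-1`. -/
def StH6 : Prop :=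
  ∀ (n : Type) [Fintype n] [DecidableEq n] (γ : n → M8) (E : Matrix n n ℝ → Matrix n n ℝ → M8ˣ)
    (a b : n), Gam γ → EOK γ E → a ≠ b → Lp (OO n) (rotL a b) ∧ wO E (rotL a b) = -1

/-- the general linear group as a set of matrices -/
def GG (n : Type) [Fintype n] [DecidableEq n] : Set (Matrix n n ℝ) := {g | g.det ≠ 0}

/-- H7. The Gram-Schmidt retraction. -/
def StH7 : Prop :=
  ∀ (n : Type) [Fintype n] [DecidableEq n], ∃ Q : Matrix n n ℝ → Matrix n n ℝ,
    ContinuousOn Q (GG n) ∧ ∀ g ∈ GG n, Q g ∈ OO n ∧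
      (∀ τ ∈ Icc (0 : ℝ) 1, (1 - τ) • g + τ • Q g ∈ GG n) ∧ (g ∈ OO n → Q g = g)

/-- H8. The invariant of loops in the general linear group. -/
def StH8 : Prop :=
  ∃ w : (ℝ → Matrix N7 N7 ℝ) → ℤ, WOK (GG N7) w ∧
    w (rotL (Sum.inl (0, 0)) (Sum.inl (0, 1))) = -1

/-- H9. The invariant of the block loops is `1`. -/
def StH9 : Prop :=
  ∀ (w : (ℝ → Matrix N7 N7 ℝ) → ℤ) (H : ℝ → Matrix (Fin 3) (Fin 3) ℝ)
    (C : Matrix (Fin 2) (Fin 2) ℝ) (v : ℝ → Matrix I6 Unit ℝ) (D : ℝ → Matrix Unit Unit ℝ),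
    WOK (GG N7) w → ContinuousOn H (Icc 0 1) → ContinuousOn v (Icc 0 1) →
    ContinuousOn D (Icc 0 1) → H 0 = H 1 → v 0 = v 1 → D 0 = D 1 →
    (∀ t ∈ Icc (0 : ℝ) 1,
      (Matrix.fromBlocks (Matrix.kroneckerMap (· * ·) C (H t)) (v t) 0 (D t)).det ≠ 0) →
    w (fun t => Matrix.fromBlocks (Matrix.kroneckerMap (· * ·) C (H t)) (v t) 0 (D t)) = 1

end Pool.Agent.Helper74.SS
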