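import Pool.Agent.Helper74.SS.Cpx
import Pool.Agent.Helper74.SS.Alg

/-! Project SS: statements of Part I (CW structure), Part J (the positive half) and Part K (final
assembly). -/

set_option autoImplicit false

open Set Metric Filter Topology

namespace Pool.Agent.Helper74.SS

/-- the unit sphere -/
abbrev S2 : Type := ↥(Metric.sphere (0 : EuclideanSpace ℝ (Fin 3)) 1)

/-- wedge with one sphere, as in the frozen statement -/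
abbrev Q1 {X : Type} [TopologicalSpace X] (K : Set X) (k0 : ↥K) (s0 : S2) : Type :=
  Quot (fun a b : ↥K ⊕ ↥(Metric.sphere (0 : EuclideanSpace ℝ (Fin 3)) 1) =>
    a = Sum.inl k0 ∧ b = Sum.inr s0)

/-- wedge with two spheres, as in the frozen statement -/
abbrev Q2 {X : Type} [TopologicalSpace X] (K : Set X) (k0 : ↥K) (s0 : S2) : Type :=
  Quot (fun a b : ↥K ⊕ (↥(Metric.sphere (0 : EuclideanSpace ℝ (Fin 3)) 1) ⊕
      ↥(Metric.sphere (0 : EuclideanSpace ℝ (Fin 3)) 1)) =>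
    a = Sum.inl k0 ∧ (b = Sum.inr (Sum.inl s0) ∨ b = Sum.inr (Sum.inr s0)))

/-! ### Part I -/

/-- I1. Characteristic maps from maps of closed balls. -/
def StI1 : Prop :=
  ∀ (n : ℕ) (X : Type) [TopologicalSpace X] [T2Space X] (f : (Fin n → ℝ) → X),
    ContinuousOn f (closedBall 0 1) → InjOn f (ball 0 1) →
    (∀ x ∈ ball (0 : Fin n → ℝ) 1, ∀ y ∈ sphere (0 : Fin n → ℝ) 1, f x ≠ f y) →
    ∃ e : PartialEquiv (Fin n → ℝ) X, (∀ x, e x = f x) ∧ e.source = ball 0 1 ∧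
      ContinuousOn e.symm e.target

/-- I2. Polar coordinates on the square `closedBall 0 1 ⊆ Fin 2 → ℝ`. -/
def StI2 : Prop :=
  ∃ u : (Fin 2 → ℝ) → ℝ, (∀ z, u z ∈ Ico (0 : ℝ) 1) ∧
    (∀ z z', ‖z‖ = ‖z'‖ → u z = u z' → z = z') ∧
    (∀ ρ ∈ Ioc (0 : ℝ) 1, ∀ t ∈ Ico (0 : ℝ) 1, ∃ z, ‖z‖ = ρ ∧ u z = t) ∧
    ∀ (X : Type) [TopologicalSpace X] (c : ℝ → ℝ → X),
      ContinuousOn (fun p : ℝ × ℝ => c p.1 p.2) (Icc 0 1 ×ˢ Icc 0 1) →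
      (∀ t ∈ Icc (0 : ℝ) 1, c 0 t = c 0 0) → (∀ ρ ∈ Icc (0 : ℝ) 1, c ρ 0 = c ρ 1) →
      ContinuousOn (fun z => c ‖z‖ (u z)) (closedBall 0 1)

/-- I3. The CW structure. -/
def StI3 : Prop :=
  ∀ (ι κ : Type) [Fintype ι] [DecidableEq ι] [Fintype κ] [DecidableEq κ] (R : κ → Wd ι),
    ∃ (_ : Topology.CWComplex (XX R)),
      (∀ n : ℕ, Finite (Topology.CWComplex.cell (XX R) n)) ∧
      (∀ n : ℕ, 2 < n → IsEmpty (Topology.CWComplex.cell (XX R) n))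

/-- I4. Connectedness. -/
def StI4 : Prop :=
  ∀ (ι κ : Type) [Fintype ι] [DecidableEq ι] [Fintype κ] [DecidableEq κ] (R : κ → Wd ι),
    IsConnected (XX R)

/-! ### Part J -/

/-- the loops of the words `w`, `w'` are homotopic in `XX R` -/
def LoopH {ι κ : Type} [DecidableEq ι] [DecidableEq κ] (R : κ → Wd ι) (w w' : Wd ι) : Prop :=
  ∃ H : ℝ → ℝ → Amb ι κ, ContinuousOn (fun p : ℝ × ℝ => H p.1 p.2) (Icc 0 1 ×ˢ Icc 0 1) ∧
    (∀ τ ∈ Icc (0 : ℝ) 1, ∀ t ∈ Icc (0 : ℝ) 1, H τ t ∈ XX R) ∧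
    (∀ t ∈ Icc (0 : ℝ) 1, H 0 t = (gam w t, 0)) ∧ (∀ t ∈ Icc (0 : ℝ) 1, H 1 t = (gam w' t, 0)) ∧
    (∀ τ ∈ Icc (0 : ℝ) 1, H τ 0 = 0 ∧ H τ 1 = 0)

/-- J1. Wedge with one sphere. -/
def StJ1 : Prop :=
  ∀ (ι κ : Type) [Fintype ι] [DecidableEq ι] [Fintype κ] [DecidableEq κ] (R : κ → Wd ι)
    (k0 : ↥(XX R)) (s0 : S2), (k0 : Amb ι κ) = 0 → (s0 : EuclideanSpace ℝ (Fin 3)) = !₂[0, 0, -1] →
    Nonempty (Q1 (XX R) k0 s0 ≃ₜ ↥(XX (Sum.elim R fun _ : Unit => ([] : Wd ι))))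

/-- J2. Wedge with two spheres. -/
def StJ2 : Prop :=
  ∀ (ι κ : Type) [Fintype ι] [DecidableEq ι] [Fintype κ] [DecidableEq κ] (R : κ → Wd ι)
    (k0 : ↥(XX R)) (s0 : S2), (k0 : Amb ι κ) = 0 → (s0 : EuclideanSpace ℝ (Fin 3)) = !₂[0, 0, -1] →
    Nonempty (Q2 (XX R) k0 s0 ≃ₜ ↥(XX (Sum.elim R fun _ : Fin 2 => ([] : Wd ι))))

/-- J3. Loops of words in the normal closure of the relators are null-homotopic. -/
def StJ3 : Prop :=
  ∀ (ι κ : Type) [Fintype ι] [DecidableEq ι] [Fintype κ] [DecidableEq κ] (R : κ → Wd ι) (w : Wd ι),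
    FreeGroup.mk w ∈ Subgroup.normalClosure (Set.range fun j => FreeGroup.mk (R j)) →
    LoopH R [] w

/-- the inclusion of the complex of `R` into the complex with more cells -/
def inc {ι κ κ' : Type} (x : Amb ι κ) : Amb ι (κ ⊕ κ') := (x.1, Sum.elim x.2 0)

/-- `Φ` is the map which is the inclusion on `XX R` and is given on the new cell `k` by the cell
`r' k` (for `ρ ≤ 1/2`) followed by the reversed homotopy `H k` (for `ρ ≥ 1/2`). -/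
structure IsPhi {ι κ κ' : Type} [DecidableEq ι] [DecidableEq κ] [DecidableEq κ'] (R : κ → Wd ι)
    (r r' : κ' → Wd ι) (H : κ' → ℝ → ℝ → Amb ι κ) (Φ : Amb ι (κ ⊕ κ') → Amb ι (κ ⊕ κ')) :
    Prop where
  cont : ContinuousOn Φ (XX (Sum.elim R r))
  maps : MapsTo Φ (XX (Sum.elim R r)) (XX (Sum.elim R r'))
  old : ∀ x ∈ XX R, Φ (inc x) = inc x
  inner : ∀ k, ∀ ρ ∈ Icc (0 : ℝ) (1 / 2), ∀ t ∈ Icc (0 : ℝ) 1,
    Φ (cel (Sum.elim R r) (Sum.inr k) ρ t) = cel (Sum.elim R r') (Sum.inr k) (2 * ρ) t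
  outer : ∀ k, ∀ ρ ∈ Icc (1 / 2 : ℝ) 1, ∀ t ∈ Icc (0 : ℝ) 1,
    Φ (cel (Sum.elim R r) (Sum.inr k) ρ t) = inc (H k (2 - 2 * ρ) t)

/-- a system of homotopies from the loops of `r` to the loops of `r'` -/
structure IsHt {ι κ κ' : Type} [DecidableEq ι] [DecidableEq κ] (R : κ → Wd ι)
    (r r' : κ' → Wd ι) (H : κ' → ℝ → ℝ → Amb ι κ) : Prop where
  cont : ∀ k, ContinuousOn (fun p : ℝ × ℝ => H k p.1 p.2) (Icc 0 1 ×ˢ Icc 0 1)
  maps : ∀ k, ∀ τ ∈ Icc (0 : ℝ) 1, ∀ t ∈ Icc (0 : ℝ) 1, H k τ t ∈ XX R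
  zero : ∀ k, ∀ t ∈ Icc (0 : ℝ) 1, H k 0 t = (gam (r k) t, 0)
  one : ∀ k, ∀ t ∈ Icc (0 : ℝ) 1, H k 1 t = (gam (r' k) t, 0)
  ends : ∀ k, ∀ τ ∈ Icc (0 : ℝ) 1, H k τ 0 = 0 ∧ H k τ 1 = 0

/-- J4. Existence of `Φ`. -/
def StJ4 : Prop :=
  ∀ (ι κ κ' : Type) [Fintype ι] [DecidableEq ι] [Fintype κ] [DecidableEq κ] [Fintype κ']
    [DecidableEq κ'] (R : κ → Wd ι) (r r' : κ' → Wd ι) (H : κ' → ℝ → ℝ → Amb ι κ),
    IsHt R r r' H → ∃ Φ, IsPhi R r r' H Φ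

/-- J5. The composition `Ψ ∘ Φ` is homotopic to the identity. -/
def StJ5 : Prop :=
  ∀ (ι κ κ' : Type) [Fintype ι] [DecidableEq ι] [Fintype κ] [DecidableEq κ] [Fintype κ']
    [DecidableEq κ'] (R : κ → Wd ι) (r r' : κ' → Wd ι) (H : κ' → ℝ → ℝ → Amb ι κ)
    (Φ Ψ : Amb ι (κ ⊕ κ') → Amb ι (κ ⊕ κ')),
    IsHt R r r' H → IsPhi R r r' H Φ → IsPhi R r' r (fun k τ t => H k (1 - τ) t) Ψ →
    ∃ h : Amb ι (κ ⊕ κ') → ℝ → Amb ι (κ ⊕ κ'),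
      ContinuousOn (fun p : Amb ι (κ ⊕ κ') × ℝ => h p.1 p.2)
        (XX (Sum.elim R r) ×ˢ Icc (0 : ℝ) 1) ∧
      (∀ x ∈ XX (Sum.elim R r), ∀ τ ∈ Icc (0 : ℝ) 1, h x τ ∈ XX (Sum.elim R r)) ∧
      (∀ x ∈ XX (Sum.elim R r), h x 0 = Ψ (Φ x)) ∧ (∀ x ∈ XX (Sum.elim R r), h x 1 = x)

/-- J6. Replacing relators by homotopic ones does not change the homotopy type. -/
def StJ6 : Prop :=
  ∀ (ι κ κ' : Type) [Fintype ι] [DecidableEq ι] [Fintype κ] [DecidableEq κ] [Fintype κ']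
    [DecidableEq κ'] (R : κ → Wd ι) (r r' : κ' → Wd ι), (∀ k, LoopH R (r k) (r' k)) →
    Nonempty (ContinuousMap.HomotopyEquiv ↥(XX (Sum.elim R r)) ↥(XX (Sum.elim R r')))

/-- J7. Permuting the relators. -/
def StJ7 : Prop :=
  ∀ (ι κ κ' : Type) [Fintype ι] [DecidableEq ι] [Fintype κ] [DecidableEq κ] [Fintype κ']
    [DecidableEq κ'] (R : κ → Wd ι) (R' : κ' → Wd ι) (e : κ ≃ κ'), (∀ j, R' (e j) = R j) →
    Nonempty (↥(XX R) ≃ₜ ↥(XX R'))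

/-- J8. The additional relators are consequences. -/
def StJ8 : Prop :=
  (∀ j, FreeGroup.mk (Cw (lt (.b 0)) (UU j)) ∈
    Subgroup.normalClosure (Set.range fun r => FreeGroup.mk (RK r))) ∧
  (∀ j, FreeGroup.mk (Cw (lt (.b 0)) (lt (.a j))) ∈
    Subgroup.normalClosure (Set.range fun r => FreeGroup.mk (RL r)))

/-- J. The positive half. -/
def StJ : Prop :=
  Nonempty (ContinuousMap.HomotopyEquiv ↥(XX (Sum.elim RK fun _ : Fin 2 => ([] : Wd Gn)))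
    ↥(XX (Sum.elim RL fun _ : Fin 2 => ([] : Wd Gn))))

/-! ### Part K -/

/-- K1. From homotopy equivalences of subspaces to the structure `HE`. -/
def StK1 : Prop :=
  ∀ (V V' : Type) [MetricSpace V] [MetricSpace V'] (S : Set V) (S' : Set V'), IsCompact S →
    IsCompact S' → S.Nonempty → Nonempty (ContinuousMap.HomotopyEquiv ↥S ↥S') →
    ∃ (F : V → V') (G : V' → V) (h : V → ℝ → V) (k : V' → ℝ → V'), HE S S' F G h k

/-- K. The final statement. -/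
def StK : Prop :=
  ∃ (X Y : Type) (_ : TopologicalSpace X) (_ : TopologicalSpace Y) (_ : T2Space X)
      (_ : T2Space Y) (K : Set X) (L : Set Y) (_ : Topology.CWComplex K)
      (_ : Topology.CWComplex L),
      IsConnected K ∧ IsConnected L ∧
      (∀ n : ℕ, Finite (Topology.CWComplex.cell K n)) ∧
      (∀ n : ℕ, Finite (Topology.CWComplex.cell L n)) ∧
      (∀ n : ℕ, 2 < n → IsEmpty (Topology.CWComplex.cell K n)) ∧
      (∀ n : ℕ, 2 < n → IsEmpty (Topology.CWComplex.cell L n)) ∧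
      ∃ (k0 : ↥K) (l0 : ↥L) (s0 : ↥(Metric.sphere (0 : EuclideanSpace ℝ (Fin 3)) 1)),
        Nonempty (ContinuousMap.HomotopyEquiv (Q2 K k0 s0) (Q2 L l0 s0)) ∧
        ¬ Nonempty (ContinuousMap.HomotopyEquiv (Q1 K k0 s0) (Q1 L l0 s0))

end Pool.Agent.Helper74.SS
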