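import Pool.Agent.Helper74.SS.StA
import Pool.Agent.Helper74.SS.Geo
import Pool.Agent.Helper74.SS.Alg
import Pool.Agent.Helper74.SS.Spin
import Pool.Agent.Helper74.SS.Cpx
import Pool.Agent.Helper74.SS.Top
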