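import Pool.Agent.Helper74.SS.Defs

/-! Project SS: statements of Part A (group valued cocycles near the diagonal) and of Part B (twisted
cochains). Every statement is a `Prop`; a module proves one of them, possibly from others. -/

set_option autoImplicit false

open Set Metric Filter Topology

namespace Pool.Agent.Helper74.SS

/-! ### Part A -/

/-- A1. Path products exist, uniformly in a family of paths. -/
def StA1 : Prop :=
  ∀ (V V' G : Type) [PseudoMetricSpace V] [PseudoMetricSpace V'] [Group G]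
    (S : Set V) (S' : Set V') (E : V' → V' → G) (h : V → ℝ → V'),
    Coc S' E → HMor S S' h → ∃ N0 : ℕ, ∀ N ≥ N0, ∀ x ∈ S, pp E (h x) N = PP E (h x)

/-- A1'. The path product of one path is the eventual value of `pp`. -/
def StA1' : Prop :=
  ∀ (V G : Type) [PseudoMetricSpace V] [Group G] (S : Set V) (E : V → V → G) (γ : ℝ → V),
    Coc S E → IsPath S γ → ∃ N0 : ℕ, ∀ N ≥ N0, pp E γ N = PP E γ

/-- A2. Concatenation. -/
def StA2 : Prop :=
  ∀ (V G : Type) [PseudoMetricSpace V] [Group G] (S : Set V) (E : V → V → G) (γ γ' δ : ℝ → V),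
    Coc S E → IsPath S γ → IsPath S γ' → γ 1 = γ' 0 →
    (∀ t ∈ Icc (0 : ℝ) (1 / 2), δ t = γ (2 * t)) →
    (∀ t ∈ Icc (1 / 2 : ℝ) 1, δ t = γ' (2 * t - 1)) →
    IsPath S δ ∧ PP E δ = PP E γ * PP E γ'

/-- A3. Constant paths and reversed paths; two paths which agree on `[0,1]`; equal near the
diagonal; diagonal values. -/
def StA3 : Prop :=
  ∀ (V G : Type) [PseudoMetricSpace V] [Group G] (S : Set V) (E : V → V → G),
    Coc S E →
    (∀ x ∈ S, E x x = 1) ∧
    (∃ ε > 0, ∀ x ∈ S, ∀ y ∈ S, dist x y < ε → E y x = (E x y)⁻¹) ∧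
    (∀ x ∈ S, PP E (fun _ => x) = 1) ∧
    (∀ γ γ' : ℝ → V, (∀ t ∈ Icc (0 : ℝ) 1, γ t = γ' t) → PP E γ = PP E γ') ∧
    (∀ γ : ℝ → V, IsPath S γ → PP E (fun t => γ (1 - t)) = (PP E γ)⁻¹) ∧
    (∀ (E' : V → V → G) (γ : ℝ → V), Nr2 S E E' → IsPath S γ → Coc S E' ∧ PP E' γ = PP E γ)

/-- A4. Homomorphisms and pull-backs. -/
def StA4 : Prop :=
  (∀ (V G G' : Type) [PseudoMetricSpace V] [Group G] [Group G'] (S : Set V) (E : V → V → G)
    (f : G →* G') (γ : ℝ → V), Coc S E → IsPath S γ →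
    Coc S (fun x y => f (E x y)) ∧ PP (fun x y => f (E x y)) γ = f (PP E γ)) ∧
  (∀ (V V' G : Type) [PseudoMetricSpace V] [PseudoMetricSpace V'] [Group G] (S : Set V)
    (S' : Set V') (E : V' → V' → G) (F : V → V') (γ : ℝ → V), Coc S' E → Mor S S' F → IsPath S γ →
    Coc S (fun x y => E (F x) (F y)) ∧ IsPath S' (fun t => F (γ t)) ∧
      PP (fun x y => E (F x) (F y)) γ = PP E (fun t => F (γ t)))

/-- A5. Gauge transformations and path products. -/
def StA5 : Prop :=
  ∀ (V G : Type) [PseudoMetricSpace V] [Group G] (S : Set V) (c : V → G) (E E' : V → V → G)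
    (γ : ℝ → V), Coc S E → Gau S c E E' → IsPath S γ →
    Coc S E' ∧ c (γ 0) * PP E' γ = PP E γ * c (γ 1)

/-- A6. Gauge transformations form a groupoid; functoriality. -/
def StA6 : Prop :=
  (∀ (V G : Type) [PseudoMetricSpace V] [Group G] (S : Set V) (E : V → V → G),
    Gau S (fun _ => 1) E E) ∧
  (∀ (V G : Type) [PseudoMetricSpace V] [Group G] (S : Set V) (c : V → G) (E E' : V → V → G),
    Gau S c E E' → Gau S (fun x => (c x)⁻¹) E' E) ∧
  (∀ (V G : Type) [PseudoMetricSpace V] [Group G] (S : Set V) (c c' : V → G)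
    (E E' E'' : V → V → G), Gau S c E E' → Gau S c' E' E'' → Gau S (fun x => c x * c' x) E E'') ∧
  (∀ (V V' G : Type) [PseudoMetricSpace V] [PseudoMetricSpace V'] [Group G] (S : Set V)
    (S' : Set V') (c : V' → G) (E E' : V' → V' → G) (F : V → V'), Gau S' c E E' → Mor S S' F →
    Gau S (fun x => c (F x)) (fun x y => E (F x) (F y)) (fun x y => E' (F x) (F y))) ∧
  (∀ (V G G' : Type) [PseudoMetricSpace V] [Group G] [Group G'] (S : Set V) (c : V → G)
    (E E' : V → V → G) (f : G →* G'), Gau S c E E' →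
    Gau S (fun x => f (c x)) (fun x y => f (E x y)) (fun x y => f (E' x y)))

/-- A7. Homotopy invariance: the two pull-backs differ by the gauge transformation given by the path
products along the homotopy. -/
def StA7 : Prop :=
  ∀ (V V' G : Type) [PseudoMetricSpace V] [PseudoMetricSpace V'] [Group G]
    (S : Set V) (S' : Set V') (E : V' → V' → G) (h : V → ℝ → V'),
    Coc S' E → HMor S S' h →
    Gau S (fun x => PP E (h x)) (fun x y => E (h x 0) (h y 0)) (fun x y => E (h x 1) (h y 1))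

/-- A8. The square. -/
def StA8 : Prop :=
  ∀ (V G : Type) [PseudoMetricSpace V] [Group G] (S : Set V) (E : V → V → G) (h : ℝ → ℝ → V),
    Coc S E → ContinuousOn (fun p : ℝ × ℝ => h p.1 p.2) (Icc 0 1 ×ˢ Icc 0 1) →
    (∀ t ∈ Icc (0 : ℝ) 1, ∀ τ ∈ Icc (0 : ℝ) 1, h t τ ∈ S) →
    PP E (fun τ => h 0 τ) * PP E (fun t => h t 1) = PP E (fun t => h t 0) * PP E (fun τ => h 1 τ)

/-- A9. Cocycles on contractible sets are trivial; trivial cocycles have trivial holonomy. -/
def StA9 : Prop :=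
  (∀ (V G : Type) [PseudoMetricSpace V] [Group G] (S : Set V) (E : V → V → G),
    Contr S → Coc S E → ∃ d : V → G, Gau S d E (fun _ _ => 1)) ∧
  (∀ (V G : Type) [PseudoMetricSpace V] [Group G] (S : Set V) (E : V → V → G) (d : V → G)
    (γ : ℝ → V), Coc S E → Gau S d E (fun _ _ => 1) → IsPath S γ →
    PP E γ = d (γ 0) * (d (γ 1))⁻¹)

/-- A10. Functions which are locally constant near the diagonal are constant along paths. -/
def StA10 : Prop :=
  ∀ (V B : Type) [PseudoMetricSpace V] (S : Set V) (c : V → B) (γ : ℝ → V),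
    (∃ ε > 0, ∀ x ∈ S, ∀ y ∈ S, dist x y < ε → c x = c y) → IsPath S γ → c (γ 0) = c (γ 1)

/-! ### Part B -/

/-- B1. Elementary closure properties. -/
def StB1 : Prop :=
  ∀ (V A : Type) [PseudoMetricSpace V] [CommRing A] (S : Set V) (e : V → V → Aˣ),
    Coc S e →
    (∀ g : V → A, Nr3 S (d1 e (d0 e g)) (fun _ _ _ => 0)) ∧
    (∀ φ : V → V → A, Z2 S e (d1 e φ)) ∧
    (∀ ω ω' : V → V → V → A, Nr3 S ω ω' → Z2 S e ω → Z2 S e ω') ∧
    (∀ ω ω' : V → V → V → A, ∀ a : A, Z2 S e ω → Z2 S e ω' →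
      Z2 S e (fun x y z => ω x y z + a * ω' x y z)) ∧
    (∀ ω ω' : V → V → V → A, ∀ a : A, B2 S e ω → B2 S e ω' →
      B2 S e (fun x y z => ω x y z + a * ω' x y z)) ∧
    (∀ ω : V → V → V → A, B2 S e ω → Z2 S e ω) ∧
    (∀ φ : V → V → A, Z1 S e φ ↔ Coc S (fun x y => (⟨φ x y, e x y⟩ : Aff A)))

/-- B2. Gauge transformations, pull-backs and ring homomorphisms. -/
def StB2 : Prop :=
  (∀ (V A : Type) [PseudoMetricSpace V] [CommRing A] (S : Set V) (e e' : V → V → Aˣ) (g : V → Aˣ)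
    (ω : V → V → V → A), Gau S g e e' →
    (Z2 S e' ω → Z2 S e (fun x y z => (g x : A) * ω x y z)) ∧
    (B2 S e' ω → B2 S e (fun x y z => (g x : A) * ω x y z))) ∧
  (∀ (V V' A : Type) [PseudoMetricSpace V] [PseudoMetricSpace V'] [CommRing A] (S : Set V)
    (S' : Set V') (F : V → V') (e : V' → V' → Aˣ) (ω : V' → V' → V' → A), Mor S S' F →
    (Z2 S' e ω → Z2 S (fun x y => e (F x) (F y)) (fun x y z => ω (F x) (F y) (F z))) ∧
    (B2 S' e ω → B2 S (fun x y => e (F x) (F y)) (fun x y z => ω (F x) (F y) (F z)))) ∧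
  (∀ (V A A' : Type) [PseudoMetricSpace V] [CommRing A] [CommRing A'] (S : Set V)
    (e : V → V → Aˣ) (ω : V → V → V → A) (f : A →+* A'),
    (Z2 S e ω → Z2 S (fun x y => Units.map (f : A →* A') (e x y)) (fun x y z => f (ω x y z))) ∧
    (B2 S e ω → B2 S (fun x y => Units.map (f : A →* A') (e x y)) (fun x y z => f (ω x y z))))

/-- B3. One small step. `f` and `f'` need not be continuous; it is enough that they are
uniformly close to each other and that `f` and `f'` map close points to close points. -/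
def StB3 : Prop :=
  ∀ (V V' A : Type) [PseudoMetricSpace V] [PseudoMetricSpace V'] [CommRing A] (S' : Set V')
    (e : V' → V' → Aˣ) (ω : V' → V' → V' → A), Coc S' e → Z2 S' e ω → ∃ ε > 0,
    ∀ (S : Set V) (f f' : V → V'), MapsTo f S S' → MapsTo f' S S' →
      (∃ ε1 > 0, ∀ x ∈ S, ∀ y ∈ S, dist x y < ε1 →
        dist (f x) (f y) < ε ∧ dist (f x) (f' y) < ε ∧ dist (f' x) (f' y) < ε) →
      Gau S (fun x => e (f x) (f' x)) (fun x y => e (f x) (f y)) (fun x y => e (f' x) (f' y)) ∧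
      B2 S (fun x y => e (f x) (f y))
        (fun x y z => ω (f x) (f y) (f z) - (e (f x) (f' x) : A) * ω (f' x) (f' y) (f' z))

/-- B4. Homotopy invariance for 2-cocycles. -/
def StB4 : Prop :=
  ∀ (V V' A : Type) [PseudoMetricSpace V] [PseudoMetricSpace V'] [CommRing A]
    (S : Set V) (S' : Set V') (e : V' → V' → Aˣ) (ω : V' → V' → V' → A) (h : V → ℝ → V'),
    Coc S' e → Z2 S' e ω → HMor S S' h →
    B2 S (fun x y => e (h x 0) (h y 0))
      (fun x y z => ω (h x 0) (h y 0) (h z 0) -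
        ((PP e (h x) : Aˣ) : A) * ω (h x 1) (h y 1) (h z 1))

/-- B5. Contractible sets have no second cohomology. -/
def StB5 : Prop :=
  ∀ (V A : Type) [PseudoMetricSpace V] [CommRing A] (S : Set V) (e : V → V → Aˣ)
    (ω : V → V → V → A), Contr S → Coc S e → Z2 S e ω → B2 S e ω

/-- B6. Sets of dimension at most one have no second cohomology. -/
def StB6 : Prop :=
  ∀ (V A : Type) [PseudoMetricSpace V] [CommRing A] (S : Set V) (e : V → V → Aˣ)
    (ω : V → V → V → A), Dim1 S → Coc S e → Z2 S e ω → B2 S e ω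

/-- B7. Twisted line integrals. -/
def StB7 : Prop :=
  ∀ (V A : Type) [PseudoMetricSpace V] [CommRing A] (S : Set V) (e : V → V → Aˣ) (γ : ℝ → V),
    Coc S e → IsPath S γ →
    (∀ φ : V → V → A, Z1 S e φ →
      PP (fun x y => (⟨φ x y, e x y⟩ : Aff A)) γ = ⟨integ e φ γ, PP e γ⟩) ∧
    (∀ φ φ' : V → V → A, ∀ a : A, Z1 S e φ → Z1 S e φ' →
      Z1 S e (fun x y => φ x y + a * φ' x y) ∧
      integ e (fun x y => φ x y + a * φ' x y) γ = integ e φ γ + a * integ e φ' γ) ∧
    (∀ g : V → A, Z1 S e (d0 e g) ∧ integ e (d0 e g) γ = ((PP e γ : Aˣ) : A) * g (γ 1) - g (γ 0)) ∧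
    (∀ φ φ' : V → V → A, Z1 S e φ → Nr2 S φ φ' → Z1 S e φ' ∧ integ e φ' γ = integ e φ γ) ∧
    (∀ φ : V → V → A, Contr S → Z1 S e φ → γ 0 = γ 1 → integ e φ γ = 0 ∧ PP e γ = 1) ∧
    (∀ (A' : Type) [CommRing A'] (f : A →+* A') (φ : V → V → A), Z1 S e φ →
      Z1 S (fun x y => Units.map (f : A →* A') (e x y)) (fun x y => f (φ x y)) ∧
      integ (fun x y => Units.map (f : A →* A') (e x y)) (fun x y => f (φ x y)) γ =
        f (integ e φ γ))

end Pool.Agent.Helper74.SS
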